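import Pool.Agent.H295R2.P

/-!
# Divisor functions and functions with a Laplace transform: definitions and the pieces

The pieces are the propositions `S_...`; every one is independent of the others.
-/

set_option autoImplicit false

open MeasureTheory Filter Topology Set Polynomial
open Pool.Agent.H295R2 (Nice Lap)

namespace Run7.h684.LD

noncomputable section

/-- the number of ordered factorisations into `k` factors -/
def dv : ℕ → ℕ → ℕ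
  | 0, n => if n = 1 then 1 else 0
  | k + 1, n => ∑ m ∈ n.divisors, dv k m

/-- its summatory function -/
def D (k : ℕ) (x : ℝ) : ℝ := ∑ n ∈ Finset.Icc 1 ⌊x⌋₊, (dv k n : ℝ)

/-- the Laplace transform of `e^u P(u)`, `u ≥ 0` -/
def RP (P : ℂ[X]) (s : ℂ) : ℂ := P.sum fun j a => a * (j.factorial : ℂ) / (s - 1) ^ (j + 1)

/-- Piece 1: `d_k(n) = O(n^ε)`. -/
def S_dv : Prop := ∀ (k : ℕ) (ε : ℝ), 0 < ε → ∃ C : ℝ, 0 ≤ C ∧ ∀ n : ℕ, 1 ≤ n →
  (dv k n : ℝ) ≤ C * (n : ℝ) ^ ε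

/-- Piece 2: the Laplace transform of the summatory function (from piece 1: Dirichlet series with coefficients `dv k`
are powers of zeta, `LSeries_eq_mul_integral`; compare `Run7.h684.Smp.Dat.lap` and `lap_of_mellin` in
`Run7/h684/Smp/Base.lean`). -/
def S_lapD : Prop := S_dv → ∀ k : ℕ,
  (∀ σ : ℝ, 1 < σ → ∃ C : ℝ, 0 ≤ C ∧ ∀ x : ℝ, 1 ≤ x → D k x ≤ C * x ^ σ) ∧
  ∀ s : ℂ, 1 < s.re →
    s * Lap (fun u : ℝ => if u < 0 then 0 else ((D k (Real.exp u) : ℝ) : ℂ)) s = riemannZeta s ^ k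

/-- Piece 3: the Laplace transform of `e^u P(u)`. -/
def S_lapP : Prop := ∀ (P : ℂ[X]) (s : ℂ), 1 < s.re →
  Integrable (fun u : ℝ => (if u < 0 then 0 else (Real.exp u : ℂ) * P.eval (u : ℂ)) * Complex.exp (-(s * u))) ∧
  Lap (fun u : ℝ => if u < 0 then 0 else (Real.exp u : ℂ) * P.eval (u : ℂ)) s = RP P s

/-- Piece 4: the polar part of `ζ(s)^k / s` at `s = 1` (induction on the order of the pole: if `G` is differentiable on
`Re s > 0` then `G(s) / (s-1)^(k+1) = G(1) / (s-1)^(k+1) + (dslope G 1 s) / (s-1)^k`; the entire function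
`(s - 1) ζ(s)` is `Pool.Agent.H295R2.Zs`). -/
def S_polar : Prop := ∀ k : ℕ, ∃ (P : ℂ[X]) (H : ℂ → ℂ),
  (∀ s : ℂ, 0 < s.re → DifferentiableAt ℂ H s) ∧
  ∀ s : ℂ, 0 < s.re → s ≠ 1 → H s = riemannZeta s ^ k / s - RP P s

/-- A function on the line which vanishes on the left, does not jump too much, and whose Laplace transform times
`s` continues to `Re s > θ` with growth `O(|s|^ε)`. -/
structure Pr (E : ℝ → ℂ) (F : ℂ → ℂ) (θ : ℝ) : Prop where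
  h0 : 1 / 4 ≤ θ
  h1 : θ ≤ 1
  meas : Measurable E
  zero : ∀ u : ℝ, u < 0 → E u = 0
  fin : ∀ ε : ℝ, 0 < ε → ∃ C : ℝ, 0 ≤ C ∧ ∀ V u v : ℝ, 0 ≤ u → u ≤ v → v ≤ V →
    v - u ≤ Real.exp (-V) → ‖E v - E u‖ ≤ C * Real.exp (ε * V)
  cru : ∀ σ : ℝ, 1 < σ → ∃ C : ℝ, 0 ≤ C ∧ ∀ u : ℝ, 0 ≤ u → ‖E u‖ ≤ C * Real.exp (σ * u)
  lap : ∀ s : ℂ, 1 < s.re → s * Lap E s = F s
  dif : ∀ s : ℂ, θ < s.re → DifferentiableAt ℂ F s
  gro : ∀ σ ε : ℝ, θ < σ → 0 < ε → ∃ C : ℝ, 0 ≤ C ∧ ∀ s : ℂ, σ ≤ s.re → s.re ≤ 2 →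
    ‖F s‖ ≤ C * (1 + |s.im|) ^ ε

/-- Piece 5: Perron's formula: the function is `O(e^(σ u))` for all `σ > θ` (the double average `avg η (avg η E)`,
`η = e^(-u)`, is the inverse Laplace transform of `(F s / s) (phi η s)^2`; shift the line with
`Pool.Agent.H295R2.contour_shift`; model: `Pool.Agent.H295R2.perron` and `mertens_bound` in `H295R2/P.lean`, `M.lean`,
`Pool.Agent.H295R2.norm_phi_pow`). -/
def S_perron : Prop := ∀ (E : ℝ → ℂ) (F : ℂ → ℂ) (θ : ℝ), Pr E F θ → ∀ σ : ℝ, θ < σ →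
  ∃ C : ℝ, 0 ≤ C ∧ ∀ u : ℝ, 0 ≤ u → ‖E u‖ ≤ C * Real.exp (σ * u)

end

end Run7.h684.LD
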