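import Pool.Agent.Run7.h684.LD.Frm
import Pool.Agent.Run7.h684.LD.Inst
import Pool.Agent.Run7.h824.LD.Perron
import Pool.Agent.Run7.h842.LD.Uniq
import Pool.Agent.Run7.h669.LD.LH

/-!
# Assembly of the pieces
-/

set_option autoImplicit false

open MeasureTheory Filter Topology Set Polynomial

namespace Run7.h684.LD

noncomputable section

theorem t_grow : S_grow := Run7.h669.LD.t_grow

theorem t_lh : S_lh := Run7.h669.LD.t_lh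

theorem t_uniq' : S_uniq := Run7.h842.LD.t_uniq Run7.h824.LD.t_dv P613.t_lapD Pool.Agent.Run7.h299.LD.t_lapP

/-- **The equivalences.** -/
theorem forms' {θ η s : ℝ} (hθ0 : 1 / 2 ≤ θ) (hθ1 : θ < 1) {Y : Set ℝ}
    (hη : 0 < η) (hη1 : η ≤ 1) (hY : Gp η Y) (hs : s = 1 ∨ s = -1) :
    List.TFAE [Lr θ, ∀ k : ℕ, AL k θ, ∀ a : ℝ, θ < a → ∃ δ : ℝ, 0 < δ ∧ ∀ K : ℕ, ∃ k : ℕ, K ≤ k ∧
      Fw s Y (η - δ) k a] :=
  forms Run7.h824.LD.t_perron P824.t_inst Run7.h842.LD.t_polar t_uniq' t_grow t_lh.2 hθ0 hθ1 hη hη1 hY hs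

theorem fixed' {η s : ℝ} {Y : Set ℝ}
    (hη : 0 < η) (hη1 : η ≤ 1) (hY : Gp η Y) (hs : s = 1 ∨ s = -1) {a δ : ℝ} (ha : a < 1) (hδ : 0 < δ)
    (h : ∀ K : ℕ, ∃ k : ℕ, K ≤ k ∧ Fw s Y (η - δ) k a) : Lr (max a (1 / 2)) :=
  fixed Run7.h824.LD.t_perron P824.t_inst Run7.h842.LD.t_polar t_uniq' t_grow t_lh.2 hη hη1 hY hs ha hδ h

theorem lh_iff : (∀ ε : ℝ, 0 < ε → ∃ C : ℝ, ∀ t : ℝ,
    ‖riemannZeta (1 / 2 + t * Complex.I)‖ ≤ C * (1 + |t|) ^ ε) ↔ Lr (1 / 2) := t_lh.1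

end

end Run7.h684.LD
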