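import Pool.Agent.Run7.h684.LD.Def
import Pool.Agent.Run7.h684.Smp.Ms

/-!
# The mean square of the increments
-/

set_option autoImplicit false

open MeasureTheory Filter Topology Set FourierTransform
open Pool.Agent.H295R2 (Nice Lap)

namespace Run7.h684.LD

open Run7.h684.Smp (exp_sub_one_le)

noncomputable section

/-- the data in a half-plane -/
structure Dt (E : ℝ → ℂ) (F : ℂ → ℂ) (θ : ℝ) : Prop where
  h0 : 0 ≤ θ
  meas : Measurable E
  zero : ∀ u : ℝ, u < 0 → E u = 0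
  fin : ∀ ε : ℝ, 0 < ε → ∃ C : ℝ, 0 ≤ C ∧ ∀ V u v : ℝ, 0 ≤ u → u ≤ v → v ≤ V →
    v - u ≤ Real.exp (-V) → ‖E v - E u‖ ≤ C * Real.exp (ε * V)
  sum : ∀ σ : ℝ, θ < σ → ∃ C : ℝ, 0 ≤ C ∧ ∀ u : ℝ, 0 ≤ u → ‖E u‖ ≤ C * Real.exp (σ * u)
  lap : ∀ s : ℂ, θ < s.re → s * Lap E s = F s
  gro : ∀ σ ε : ℝ, θ < σ → σ ≤ 2 → 0 < ε →
    ∃ C : ℝ, 0 ≤ C ∧ ∀ t : ℝ, ‖F (σ + t * Complex.I)‖ ≤ C * (1 + |t|) ^ ε

variable {E : ℝ → ℂ} {F : ℂ → ℂ} {θ : ℝ}

theorem Dt.nice (h : Dt E F θ) {σ : ℝ} (hσ : θ < σ) : ∃ C : ℝ, Nice E C σ 0 := by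
  obtain ⟨C, hC0, hC⟩ := h.sum σ hσ
  refine ⟨C, h.meas, fun u => ?_, fun u hu => h.zero u hu⟩
  by_cases hu : 0 ≤ u
  · exact hC u hu
  · rw [h.zero u (not_le.1 hu), norm_zero]
    positivity

/-- the weighted increments -/
def G (E : ℝ → ℂ) (σ Δ : ℝ) (u : ℝ) : ℂ := (E (u + Δ) - E u) * Complex.exp (-((σ : ℂ) * u))

theorem shift_integrable {C σ' : ℝ} (hN : Nice E C σ' 0) {s : ℂ} (hs : σ' < s.re) (Δ : ℝ) :
    Integrable (fun u : ℝ => E (u + Δ) * Complex.exp (-(s * u))) ∧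
      ∫ u : ℝ, E (u + Δ) * Complex.exp (-(s * u)) = Complex.exp (s * Δ) * Lap E s := by
  have h1 := hN.integrable hs
  have e1 : (fun u : ℝ => E (u + Δ) * Complex.exp (-(s * u))) =
      fun u : ℝ => Complex.exp (s * Δ) * (E (u + Δ) * Complex.exp (-(s * ((u + Δ : ℝ) : ℂ)))) := by
    funext u
    have : Complex.exp (-(s * (u : ℂ))) = Complex.exp (s * Δ) *
        Complex.exp (-(s * ((u + Δ : ℝ) : ℂ))) := by
      rw [← Complex.exp_add]
      congr 1
      push_cast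
      ring
    rw [this]
    ring
  constructor
  · rw [e1]
    exact (h1.comp_add_right Δ).const_mul _
  · rw [e1, integral_const_mul]
    congr 1
    have := integral_add_right_eq_self (μ := volume) (fun u : ℝ => E u * Complex.exp (-(s * (u : ℂ)))) Δ
    rw [Lap]
    exact this

theorem G_integrable {C σ' : ℝ} (hN : Nice E C σ' 0) {σ : ℝ} (hσ : σ' < σ) (Δ : ℝ) :
    Integrable (G E σ Δ) := by
  have h1 := (shift_integrable hN (s := (σ : ℂ)) (by simpa using hσ) Δ).1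
  have h2 := hN.integrable (s := (σ : ℂ)) (by simpa using hσ)
  have e1 : G E σ Δ = fun u : ℝ => E (u + Δ) * Complex.exp (-((σ : ℂ) * u)) -
      E u * Complex.exp (-((σ : ℂ) * u)) := by
    funext u
    unfold G
    ring
  rw [e1]
  exact h1.sub h2

theorem G_fourier {C σ' : ℝ} (hN : Nice E C σ' 0) {σ : ℝ} (hσ : σ' < σ) (Δ ξ : ℝ) :
    𝓕 (G E σ Δ) ξ = (Complex.exp ((σ + 2 * Real.pi * ξ * Complex.I) * Δ) - 1) *
      Lap E (σ + 2 * Real.pi * ξ * Complex.I) := by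
  set s : ℂ := σ + 2 * Real.pi * ξ * Complex.I with hs
  have hre : s.re = σ := by simp [hs]
  rw [Real.fourier_eq' (G E σ Δ) ξ]
  have e1 : ∀ u : ℝ, Complex.exp (((-2 * Real.pi * inner ℝ u ξ : ℝ) : ℂ) * Complex.I) • G E σ Δ u =
      E (u + Δ) * Complex.exp (-(s * u)) - E u * Complex.exp (-(s * u)) := by
    intro u
    have h1 : inner ℝ u ξ = ξ * u := by
      simp [inner]
    rw [h1]
    unfold G
    rw [smul_eq_mul]
    have h2 : Complex.exp (((-2 * Real.pi * (ξ * u) : ℝ) : ℂ) * Complex.I) *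
        Complex.exp (-((σ : ℂ) * u)) = Complex.exp (-(s * u)) := by
      rw [← Complex.exp_add]
      congr 1
      rw [hs]
      push_cast
      ring
    calc Complex.exp (((-2 * Real.pi * (ξ * u) : ℝ) : ℂ) * Complex.I) *
          ((E (u + Δ) - E u) * Complex.exp (-((σ : ℂ) * u)))
        = (E (u + Δ) - E u) * (Complex.exp (((-2 * Real.pi * (ξ * u) : ℝ) : ℂ) * Complex.I) *
          Complex.exp (-((σ : ℂ) * u))) := by ring
      _ = _ := by rw [h2]; ring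
  simp_rw [e1]
  obtain ⟨h1, h2⟩ := shift_integrable hN (s := s) (by rw [hre]; exact hσ) Δ
  have h3 := hN.integrable (s := s) (by rw [hre]; exact hσ)
  rw [integral_sub h1 h3, h2]
  have h4 : ∫ u : ℝ, E u * Complex.exp (-(s * u)) = Lap E s := rfl
  rw [h4]
  ring

theorem G_memLp {C σ' : ℝ} (hN : Nice E C σ' 0) {σ : ℝ} (hσ : σ' < σ) (Δ : ℝ) :
    MemLp (G E σ Δ) 2 := by
  have hf : ∀ Δ : ℝ, MemLp (fun u : ℝ => E (u + Δ) * Complex.exp (-((σ : ℂ) * ((u + Δ : ℝ) : ℂ)))) 2 := by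
    intro Δ
    have hb : ∀ u : ℝ, ‖E u * Complex.exp (-((σ : ℂ) * (u : ℂ)))‖ ≤
        (Ici (0 : ℝ)).indicator (fun u => C * Real.exp ((σ' - (σ : ℂ).re) * u)) u :=
      fun u => hN.dom (σ : ℂ) u
    have hm : AEStronglyMeasurable (fun u : ℝ => E u * Complex.exp (-((σ : ℂ) * (u : ℂ)))) volume :=
      hN.aesm (σ : ℂ)
    have h0 : MemLp (fun u : ℝ => E u * Complex.exp (-((σ : ℂ) * (u : ℂ)))) 2 := by
      rw [memLp_two_iff_integrable_sq_norm hm]
      have h1 := Pool.Agent.H295R2.integrable_ind_exp (b := 2 * (σ' - σ)) (by linarith) (C ^ 2) 0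
      refine h1.mono' (hm.norm.pow 2) (Eventually.of_forall fun u => ?_)
      rw [Real.norm_of_nonneg (by positivity)]
      have h2 := hb u
      have h3 : ‖E u * Complex.exp (-((σ : ℂ) * (u : ℂ)))‖ ^ 2 ≤
          ((Ici (0 : ℝ)).indicator (fun u => C * Real.exp ((σ' - (σ : ℂ).re) * u)) u) ^ 2 := by
        gcongr
      refine h3.trans (le_of_eq ?_)
      by_cases hu : u ∈ Ici (0 : ℝ)
      · rw [indicator_of_mem hu, indicator_of_mem hu, mul_pow, ← Real.exp_nat_mul]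
        congr 2
        push_cast
        rw [Complex.ofReal_re]
        ring
      · rw [indicator_of_notMem hu, indicator_of_notMem hu]
        norm_num
    exact h0.comp_measurePreserving (measurePreserving_add_right volume Δ)
  have h1 := (hf Δ).const_mul (Complex.exp ((σ : ℂ) * Δ))
  have h2 := hf 0
  have e1 : G E σ Δ = (fun u : ℝ => Complex.exp ((σ : ℂ) * Δ) *
      (E (u + Δ) * Complex.exp (-((σ : ℂ) * ((u + Δ : ℝ) : ℂ))))) -
      fun u : ℝ => E (u + 0) * Complex.exp (-((σ : ℂ) * ((u + 0 : ℝ) : ℂ))) := by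
    funext u
    have h3 : Complex.exp (-((σ : ℂ) * (u : ℂ))) = Complex.exp ((σ : ℂ) * Δ) *
        Complex.exp (-((σ : ℂ) * ((u + Δ : ℝ) : ℂ))) := by
      rw [← Complex.exp_add]
      congr 1
      push_cast
      ring
    simp only [Pi.sub_apply, add_zero]
    unfold G
    rw [sub_mul]
    congr 1
    rw [h3]
    ring
  rw [e1]
  exact h1.sub h2

/-- **The mean square of the weighted increments.** -/
theorem Dt.plan (h : Dt E F θ) {σ ε : ℝ} (hσ : θ < σ) (hσ2 : σ ≤ 2) (hε : 0 < ε) (hε1 : ε < 1) :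
    ∃ C : ℝ, 0 ≤ C ∧ ∀ Δ : ℝ, 0 < Δ → Δ ≤ 1 →
      Integrable (fun u => ‖G E σ Δ u‖ ^ 2) ∧ ∫ u, ‖G E σ Δ u‖ ^ 2 ≤ C * Δ ^ (1 - ε) := by
  have hσ0 : 0 < σ := h.h0.trans_lt hσ
  set σ' : ℝ := (θ + σ) / 2 with hσ'
  have h1 : θ < σ' := by rw [hσ']; linarith
  have h2 : σ' < σ := by rw [hσ']; linarith
  obtain ⟨C, hN⟩ := h.nice h1
  obtain ⟨C1, hC1, hg⟩ := h.gro σ (ε / 4) hσ hσ2 (by linarith)
  set b : ℝ := (1 - ε) / 2 with hb
  have hb0 : 0 ≤ b := by rw [hb]; linarith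
  have hb1 : b ≤ 1 := by rw [hb]; linarith
  set K : ℝ := (Real.exp σ + 2) * (σ + 1) ^ b * (C1 * (1 / σ + 1)) with hK
  have hK0 : 0 ≤ K := by rw [hK]; positivity
  have hdec := Pool.Agent.H295R2.integrable_decay' (a := 1 + ε / 2) (by linarith)
  -- pointwise bound
  have hpt : ∀ Δ : ℝ, 0 < Δ → Δ ≤ 1 → ∀ ξ : ℝ, ‖𝓕 (G E σ Δ) ξ‖ ^ 2 ≤
      (K ^ 2 * Δ ^ (1 - ε)) * (1 + |2 * Real.pi * ξ|) ^ (-(1 + ε / 2)) := by
    intro Δ hΔ hΔ1 ξ
    rw [G_fourier hN h2]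
    set s : ℂ := σ + 2 * Real.pi * ξ * Complex.I with hs
    set t : ℝ := 2 * Real.pi * ξ with ht
    have hst : s = σ + t * Complex.I := by rw [hs, ht]; push_cast; ring
    have hre : s.re = σ := by simp [hst]
    have him : s.im = t := by simp [hst]
    have hs0 : s ≠ 0 := by
      intro h0
      rw [h0] at hre
      simp at hre
      linarith
    have hsn : 0 < ‖s‖ := norm_pos_iff.2 hs0
    have hsσ : σ ≤ ‖s‖ := by
      have := Complex.re_le_norm s
      rwa [hre] at this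
    have hst2 : |t| ≤ ‖s‖ := by
      have := Complex.abs_im_le_norm s
      rwa [him] at this
    have hw : 1 + |t| ≤ (1 / σ + 1) * ‖s‖ := by
      have : 1 ≤ 1 / σ * ‖s‖ := by
        rw [one_div, inv_mul_eq_div, le_div_iff₀ hσ0]
        linarith
      nlinarith
    have hw0 : 0 < 1 + |t| := by positivity
    have hL : ‖Lap E s‖ ≤ C1 * (1 / σ + 1) * (1 + |t|) ^ (ε / 4 - 1) := by
      have h3 := h.lap s (by rw [hre]; exact hσ)
      have h4 : ‖s‖ * ‖Lap E s‖ ≤ C1 * (1 + |t|) ^ (ε / 4) := by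
        rw [← norm_mul, h3, hst]
        exact hg t
      have h5 : ‖Lap E s‖ = (‖s‖ * ‖Lap E s‖) / ‖s‖ := by field_simp
      rw [h5, div_le_iff₀ hsn]
      have h6 : (1 + |t|) ^ (ε / 4 - 1) = (1 + |t|) ^ (ε / 4) / (1 + |t|) := by
        rw [Real.rpow_sub hw0, Real.rpow_one]
      rw [h6]
      refine h4.trans ?_
      have h7 : C1 * (1 / σ + 1) * ((1 + |t|) ^ (ε / 4) / (1 + |t|)) * ‖s‖ =
          C1 * (1 + |t|) ^ (ε / 4) * (((1 / σ + 1) * ‖s‖) / (1 + |t|)) := by ring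
      rw [h7]
      have h8 : 1 ≤ ((1 / σ + 1) * ‖s‖) / (1 + |t|) := by rwa [le_div_iff₀ hw0, one_mul]
      exact le_mul_of_one_le_right (by positivity) h8
    have hsle : ‖s‖ ≤ (σ + 1) * (1 + |t|) := by
      have h3 : ‖s‖ ≤ σ + |t| := by
        rw [hst]
        refine (norm_add_le _ _).trans ?_
        rw [norm_mul, Complex.norm_I, mul_one, Complex.norm_real, Complex.norm_real,
          Real.norm_of_nonneg hσ0.le, Real.norm_eq_abs]
      have := abs_nonneg t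
      nlinarith
    have hE : ‖Complex.exp (s * Δ) - 1‖ ≤ (Real.exp σ + 2) * ((σ + 1) ^ b * (1 + |t|) ^ b * Δ ^ b) := by
      have h3 := exp_sub_one_le (z := s * Δ) (σ := σ) (b := b) (by
        have : (s * (Δ : ℂ)).re = σ * Δ := by simp [hre]
        rw [this]
        nlinarith) hb0 hb1
      rw [norm_mul, Complex.norm_real, Real.norm_of_nonneg hΔ.le] at h3
      refine h3.trans ?_
      refine mul_le_mul_of_nonneg_left ?_ (by positivity)
      rw [← Real.mul_rpow (by positivity) (by positivity), ← Real.mul_rpow (by positivity) hΔ.le]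
      exact Real.rpow_le_rpow (by positivity) (mul_le_mul_of_nonneg_right hsle hΔ.le) hb0
    -- combine
    have hP : ‖(Complex.exp (s * Δ) - 1) * Lap E s‖ ≤
        K * (Δ ^ b * (1 + |t|) ^ (b + (ε / 4 - 1))) := by
      rw [norm_mul, Real.rpow_add hw0]
      refine (mul_le_mul hE hL (norm_nonneg _) (by positivity)).trans (le_of_eq ?_)
      rw [hK]
      ring
    have h9 : ‖(Complex.exp (s * Δ) - 1) * Lap E s‖ ^ 2 ≤
        (K * (Δ ^ b * (1 + |t|) ^ (b + (ε / 4 - 1)))) ^ 2 := by gcongr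
    refine h9.trans (le_of_eq ?_)
    rw [mul_pow K, mul_pow (Δ ^ b), ← Real.rpow_natCast (Δ ^ b), ← Real.rpow_mul hΔ.le,
      ← Real.rpow_natCast ((1 + |t|) ^ _), ← Real.rpow_mul hw0.le, mul_assoc]
    have e1 : b * ((2 : ℕ) : ℝ) = 1 - ε := by rw [hb]; push_cast; ring
    have e2 : (b + (ε / 4 - 1)) * ((2 : ℕ) : ℝ) = -(1 + ε / 2) := by rw [hb]; push_cast; ring
    rw [e1, e2]
  refine ⟨K ^ 2 * ∫ ξ : ℝ, (1 + |2 * Real.pi * ξ|) ^ (-(1 + ε / 2)), ?_, fun Δ hΔ hΔ1 => ?_⟩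
  · exact mul_nonneg (by positivity) (integral_nonneg fun ξ => by positivity)
  have hm := G_memLp hN h2 Δ
  have hi := G_integrable hN h2 Δ
  obtain ⟨h4, h5⟩ := Pool.Agent.Helper625.Planch.plancherel (G E σ Δ) hi hm
  refine ⟨(memLp_two_iff_integrable_sq_norm hm.1).1 hm, ?_⟩
  rw [← h5]
  have h6 : Integrable (fun ξ => ‖𝓕 (G E σ Δ) ξ‖ ^ 2) := (memLp_two_iff_integrable_sq_norm h4.1).1 h4
  calc ∫ ξ, ‖𝓕 (G E σ Δ) ξ‖ ^ 2 ≤ ∫ ξ : ℝ, (K ^ 2 * Δ ^ (1 - ε)) *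
        (1 + |2 * Real.pi * ξ|) ^ (-(1 + ε / 2)) :=
        integral_mono h6 (hdec.const_mul _) fun ξ => hpt Δ hΔ hΔ1 ξ
    _ = _ := by
        rw [integral_const_mul]
        ring

/-- local integrability -/
theorem Dt.ii (h : Dt E F θ) (x y : ℝ) : IntervalIntegrable E volume x y := by
  obtain ⟨C, hN⟩ := h.nice (show θ < θ + 1 by linarith)
  have h1 : IntervalIntegrable (fun u => C * Real.exp ((θ + 1) * u)) volume x y :=
    Continuous.intervalIntegrable (by fun_prop) _ _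
  refine h1.mono_fun' h.meas.aestronglyMeasurable ?_
  exact Eventually.of_forall fun u => hN.bound u

theorem Dt.ii2 (h : Dt E F θ) (d x y : ℝ) :
    IntervalIntegrable (fun v => ‖E (v + d) - E v‖ ^ 2) volume x y := by
  obtain ⟨C, hN⟩ := h.nice (show θ < θ + 1 by linarith)
  have h1 : IntervalIntegrable (fun u => (C * Real.exp ((θ + 1) * (u + d)) +
      C * Real.exp ((θ + 1) * u)) ^ 2) volume x y :=
    Continuous.intervalIntegrable (by fun_prop) _ _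
  have hm : Measurable (fun v => ‖E (v + d) - E v‖ ^ 2) := by
    have := h.meas
    fun_prop
  refine h1.mono_fun' hm.aestronglyMeasurable ?_
  refine Eventually.of_forall fun u => ?_
  simp only
  rw [Real.norm_of_nonneg (by positivity)]
  have h2 : ‖E (u + d) - E u‖ ≤ C * Real.exp ((θ + 1) * (u + d)) + C * Real.exp ((θ + 1) * u) :=
    (norm_sub_le _ _).trans (add_le_add (hN.bound _) (hN.bound _))
  gcongr

/-- **The mean square of the increments on an interval.** -/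
theorem Dt.ms (h : Dt E F θ) {σ ε : ℝ} (hσ : θ < σ) (hσ2 : σ ≤ 2) (hε : 0 < ε) (hε1 : ε < 1) :
    ∃ C : ℝ, 0 < C ∧ ∀ Δ : ℝ, 0 < Δ → Δ ≤ 1 → ∀ U V : ℝ, U ≤ V →
      ∫ v in U..V, ‖E (v + Δ) - E v‖ ^ 2 ≤ C * Real.exp (2 * σ * V) * Δ ^ (1 - ε) := by
  obtain ⟨C, hC0, hC⟩ := h.plan hσ hσ2 hε hε1
  have hσ0 : 0 < σ := h.h0.trans_lt hσ
  refine ⟨C + 1, by linarith, fun Δ hΔ hΔ1 U V hUV => ?_⟩
  obtain ⟨h1, h2⟩ := hC Δ hΔ hΔ1
  have h3 : ∀ v ∈ Icc U V, ‖E (v + Δ) - E v‖ ^ 2 ≤ Real.exp (2 * σ * V) * ‖G E σ Δ v‖ ^ 2 := by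
    intro v hv
    unfold G
    rw [norm_mul, mul_pow, Complex.norm_exp]
    have e1 : (-((σ : ℂ) * (v : ℂ))).re = -(σ * v) := by simp
    rw [e1, ← Real.exp_nat_mul]
    have e2 : Real.exp (2 * σ * V) * (‖E (v + Δ) - E v‖ ^ 2 * Real.exp (((2 : ℕ) : ℝ) * -(σ * v))) =
        ‖E (v + Δ) - E v‖ ^ 2 * Real.exp (2 * σ * (V - v)) := by
      have : Real.exp (2 * σ * (V - v)) = Real.exp (2 * σ * V) * Real.exp (((2 : ℕ) : ℝ) * -(σ * v)) := by
        rw [← Real.exp_add]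
        congr 1
        push_cast
        ring
      rw [this]
      ring
    rw [e2]
    have h4 : 1 ≤ Real.exp (2 * σ * (V - v)) := by
      apply Real.one_le_exp
      have := hv.2
      have : 0 ≤ V - v := by linarith
      positivity
    exact le_mul_of_one_le_right (by positivity) h4
  have h5 : IntervalIntegrable (fun v => Real.exp (2 * σ * V) * ‖G E σ Δ v‖ ^ 2) volume U V :=
    (h1.intervalIntegrable).const_mul _
  calc ∫ v in U..V, ‖E (v + Δ) - E v‖ ^ 2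
      ≤ ∫ v in U..V, Real.exp (2 * σ * V) * ‖G E σ Δ v‖ ^ 2 :=
        intervalIntegral.integral_mono_on hUV (h.ii2 Δ U V) h5 h3
    _ = Real.exp (2 * σ * V) * ∫ v in U..V, ‖G E σ Δ v‖ ^ 2 := by
        rw [intervalIntegral.integral_const_mul]
    _ ≤ Real.exp (2 * σ * V) * ∫ v, ‖G E σ Δ v‖ ^ 2 := by
        refine mul_le_mul_of_nonneg_left ?_ (Real.exp_pos _).le
        rw [intervalIntegral.integral_of_le hUV]
        exact setIntegral_le_integral h1 (Eventually.of_forall fun v => by positivity)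
    _ ≤ Real.exp (2 * σ * V) * ((C + 1) * Δ ^ (1 - ε)) := by
        refine mul_le_mul_of_nonneg_left (h2.trans ?_) (Real.exp_pos _).le
        have : 0 ≤ Δ ^ (1 - ε) := Real.rpow_nonneg hΔ.le _
        nlinarith
    _ = _ := by ring

end

end Run7.h684.LD
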