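import Pool.Agent.Run7.h684.LD.Def

/-!
# More pieces: the instance, uniqueness of the main term, growth of zeta
-/

set_option autoImplicit false

open MeasureTheory Filter Topology Set Polynomial
open Pool.Agent.H295R2 (Nice Lap)

namespace Run7.h684.LD

noncomputable section

/-- `ζ(s) = O(|s|^ε)` to the right of `θ` -/
def Lr (θ : ℝ) : Prop := ∀ σ ε : ℝ, θ < σ → 0 < ε → ∃ C : ℝ, 0 ≤ C ∧ ∀ s : ℂ, σ ≤ s.re → s.re ≤ 2 →
  1 ≤ |s.im| → ‖riemannZeta s‖ ≤ C * (1 + |s.im|) ^ ε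

/-- the error term in the logarithmic scale -/
def EP (k : ℕ) (P : ℂ[X]) (u : ℝ) : ℂ :=
  if u < 0 then 0 else ((D k (Real.exp u) : ℝ) : ℂ) - (Real.exp u : ℂ) * P.eval (u : ℂ)

/-- `P` is the polynomial in the residue, `H` the continuation of the Laplace transform of the error term
(`S_polar` gives such a pair for every `k`) -/
structure PH (k : ℕ) (P : ℂ[X]) (H : ℂ → ℂ) : Prop where
  dif : ∀ s : ℂ, 0 < s.re → DifferentiableAt ℂ H s
  eq : ∀ s : ℂ, 0 < s.re → s ≠ 1 → H s = riemannZeta s ^ k / s - RP P s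

/-- Piece 6: the instance. Use the proved pieces: `Run7.h824.LD.t_dv : S_dv` (Run7/h824/LD/Dv.lean),
`Run7.h613.LD.t_lapD : S_lapD` (Run7/h613/LD/LapD.lean), `Pool.Agent.Run7.h299.LD.t_lapP : S_lapP`
(Run7/h299/LD/LapP.lean). `gro`: for `|Im s| ≥ 1` one has `|s RP P s| ≤ 2 ∑ |p_j| j!`; for `|Im s| ≤ 1` compactness and
continuity of `s * H s`. `fin`: at most two integers in `(e^u, e^v]`. -/
def S_inst : Prop := ∀ (θ : ℝ), 1 / 4 ≤ θ → θ ≤ 1 → Lr θ → ∀ (k : ℕ) (P : ℂ[X]) (H : ℂ → ℂ), PH k P H →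
  Pr (EP k P) (fun s => s * H s) θ

/-- Piece 7: the polynomial with `D_k(x) = x Q(log x) + o(x)` is the one of the residue: as `w → 1+`,
`(w - 1)` times the Laplace transform of `EP k Q` at `w` tends to `0`, and this transform is `H w + RP (P - Q) w`, so
`(w - 1) RP (P - Q) w → 0`, which forces `P = Q`. -/
def S_uniq : Prop := ∀ (k : ℕ) (P : ℂ[X]) (H : ℂ → ℂ), PH k P H → ∀ Q : ℝ[X],
  (∀ ε : ℝ, 0 < ε → ∀ᶠ x : ℝ in atTop, |D k x - x * Q.eval (Real.log x)| ≤ ε * x) →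
  Q.map Complex.ofRealHom = P

/-- Piece 8: boundedness of `H` for arbitrarily large `k` bounds zeta: `|ζ(s)|^k ≤ |s| (|H s| + |RP P s|)`. -/
def S_grow : Prop := ∀ θ : ℝ, 0 ≤ θ → (∀ σ : ℝ, θ < σ → ∀ K : ℕ, ∃ k : ℕ, K ≤ k ∧ ∃ (P : ℂ[X]) (H : ℂ → ℂ),
  PH k P H ∧ ∃ C : ℝ, ∀ z : ℂ, σ ≤ z.re → ‖H z‖ ≤ C) → Lr θ

/-- Piece 9: the Lindelöf hypothesis in terms of `Lr` (from left to right `Pool.Agent.W186.LH.plr` in
W186/LH/Ex.lean, and boundedness for `Re s > 1`; from right to left `Pool.Agent.H388LH.to_critical` in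
H388LH/ZG.lean); and the trivial `Lr 1`. -/
def S_lh : Prop := ((∀ ε : ℝ, 0 < ε → ∃ C : ℝ, ∀ t : ℝ,
    ‖riemannZeta (1 / 2 + t * Complex.I)‖ ≤ C * (1 + |t|) ^ ε) ↔ Lr (1 / 2)) ∧ Lr 1

end

end Run7.h684.LD
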