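import Pool.Agent.Run7.h684.LD.Main
import Pool.Agent.Run7.h684.WS.Mass

/-!
# Divisor functions as convolution powers; the gaps between the powers of integers and of primes
-/

set_option autoImplicit false

open MeasureTheory Filter Topology Set Polynomial

namespace Run7.h684.LD

noncomputable section

theorem dv_eq (k : ℕ) : ∀ n : ℕ, (ArithmeticFunction.zeta ^ k : ArithmeticFunction ℕ) n = dv k n := by
  induction k with
  | zero =>
    intro n
    rw [pow_zero, ArithmeticFunction.one_apply]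
    rfl
  | succ k ih =>
    intro n
    rw [pow_succ, ArithmeticFunction.mul_apply]
    unfold dv
    rw [← Nat.sum_divisorsAntidiagonal (fun m _ => dv k m)]
    refine Finset.sum_congr rfl fun x hx => ?_
    rw [ih, ArithmeticFunction.zeta_apply, if_neg, mul_one]
    rw [Nat.mem_divisorsAntidiagonal] at hx
    rintro h0
    rw [h0, mul_zero] at hx
    exact hx.2 hx.1.symm

/-- a set of reals that meets every interval `[x, x + C x^(1-η)]`, `x` large -/
def Gp (η : ℝ) (Y : Set ℝ) : Prop :=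
  ∃ C : ℝ, ∀ᶠ x : ℝ in atTop, ∃ y ∈ Y, x ≤ y ∧ y ≤ x + C * x ^ (1 - η)

theorem gp_nat : Gp 1 (Set.range fun n : ℕ => (n : ℝ)) := by
  refine ⟨1, ?_⟩
  filter_upwards [eventually_gt_atTop (0 : ℝ)] with x hx
  refine ⟨(⌈x⌉₊ : ℝ), ⟨⌈x⌉₊, rfl⟩, Nat.le_ceil x, ?_⟩
  rw [sub_self, Real.rpow_zero, one_mul]
  exact (Nat.ceil_lt_add_one hx.le).le

theorem gp_prime : ∃ η : ℝ, 0 < η ∧ η ≤ 1 ∧ Gp η {y : ℝ | ∃ p : ℕ, p.Prime ∧ (p : ℝ) = y} := by
  obtain ⟨c, η, hc, hη, hη1, h⟩ := Run7.h684.WS.massLow_hoh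
  refine ⟨η, hη, hη1, 1, ?_⟩
  filter_upwards [h, eventually_ge_atTop (1 : ℝ)] with x hx hx1
  have hx0 : 0 < x := by linarith
  have h1 : x ^ (1 - η) ≤ x := by
    calc x ^ (1 - η) ≤ x ^ (1 : ℝ) := Real.rpow_le_rpow_of_exponent_le hx1 (by linarith)
      _ = x := Real.rpow_one x
  have h2 := hx _ le_rfl h1
  have hpos : 0 < x ^ (1 - η) := Real.rpow_pos_of_pos hx0 _
  have h3 : 0 < Run7.h684.WS.ws Run7.h684.WS.xiN Run7.h684.WS.gP x (x + x ^ (1 - η)) :=
    (mul_pos hc hpos).trans_le h2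
  by_contra hcon
  refine absurd h3 (not_lt.2 (le_of_eq ?_))
  unfold Run7.h684.WS.ws
  refine Finset.sum_eq_zero fun k hk => ?_
  unfold Run7.h684.WS.gP
  rw [if_neg]
  intro hp
  apply hcon
  rw [Finset.mem_Ico] at hk
  have h4 : x ≤ k := (Run7.h684.WS.le_idx Run7.h684.WS.seq_prime x k).1 hk.1
  have h5 : (k : ℝ) < x + x ^ (1 - η) := by
    by_contra hc
    have := (Run7.h684.WS.le_idx Run7.h684.WS.seq_prime (x + x ^ (1 - η)) k).2 (not_lt.1 hc)
    omega
  exact ⟨k, ⟨k, hp, rfl⟩, h4, by rw [one_mul]; exact h5.le⟩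

theorem gp_pow {η A : ℝ} (hη : 0 < η) (hA : 1 ≤ A) {S : Set ℝ} (h : Gp η S) :
    Gp (η / A) ((fun y : ℝ => y ^ A) '' S) := by
  obtain ⟨C0, hC0⟩ := h
  have hA0 : 0 < A := by linarith
  set C : ℝ := max C0 0 with hC
  have hC00 : 0 ≤ C := le_max_right _ _
  refine ⟨(2 ^ A - 1) * C, ?_⟩
  have t1 : Tendsto (fun x : ℝ => x ^ (1 / A)) atTop atTop := tendsto_rpow_atTop (by positivity)
  have t2 : Tendsto (fun u : ℝ => C * u ^ (-η)) atTop (𝓝 (C * 0)) :=
    (tendsto_rpow_neg_atTop hη).const_mul C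
  rw [mul_zero] at t2
  have t3 : ∀ᶠ u : ℝ in atTop, C * u ^ (-η) ≤ 1 := (t2.eventually_lt_const one_pos).mono fun u hu => hu.le
  filter_upwards [t1.eventually hC0, t1.eventually t3, eventually_ge_atTop (1 : ℝ)] with x h1 h2 hx
  have hx0 : 0 < x := by linarith
  obtain ⟨y, hyS, hy1, hy2⟩ := h1
  set u : ℝ := x ^ (1 / A) with hu
  have hu1 : 1 ≤ u := Real.one_le_rpow hx (by positivity)
  have hu0 : 0 < u := by linarith
  have huA : u ^ A = x := by
    rw [hu, ← Real.rpow_mul hx0.le, one_div_mul_cancel hA0.ne', Real.rpow_one]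
  set t : ℝ := C * u ^ (-η) with ht
  have ht0 : 0 ≤ t := by positivity
  have hy0 : 0 ≤ y := by linarith
  refine ⟨y ^ A, ⟨y, hyS, rfl⟩, ?_, ?_⟩
  · rw [← huA]
    exact Real.rpow_le_rpow hu0.le hy1 hA0.le
  · have e1 : u * (1 + t) = u + C * u ^ (1 - η) := by
      have : u ^ (1 - η) = u * u ^ (-η) := by
        rw [sub_eq_add_neg, Real.rpow_add hu0, Real.rpow_one]
      rw [this, ht]
      ring
    have h3 : y ≤ u * (1 + t) := by
      rw [e1]
      refine hy2.trans ?_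
      have : C0 * u ^ (1 - η) ≤ C * u ^ (1 - η) :=
        mul_le_mul_of_nonneg_right (le_max_left _ _) (Real.rpow_nonneg hu0.le _)
      linarith
    have h4 : y ^ A ≤ x * (1 + t) ^ A := by
      rw [← huA, ← Real.mul_rpow hu0.le (by linarith)]
      exact Real.rpow_le_rpow hy0 h3 hA0.le
    have h5 : (1 + t) ^ A ≤ 1 + (2 ^ A - 1) * t := by
      have ha : 0 ≤ 1 - t := by linarith
      have hab : (1 - t) + t = 1 := by ring
      have m1 : (1 : ℝ) ∈ Ici (0 : ℝ) := by simp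
      have m2 : (2 : ℝ) ∈ Ici (0 : ℝ) := by simp
      have hc := (convexOn_rpow hA).2 m1 m2 ha ht0 hab
      simp only [smul_eq_mul, Real.one_rpow, mul_one] at hc
      have e2 : 1 - t + t * 2 = 1 + t := by ring
      rw [e2] at hc
      linarith
    have e3 : x * t = C * x ^ (1 - η / A) := by
      have : x ^ (1 - η / A) = x * u ^ (-η) := by
        rw [sub_eq_add_neg, Real.rpow_add hx0, Real.rpow_one, hu, ← Real.rpow_mul hx0.le]
        congr 2
        ring
      rw [this, ht]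
      ring
    calc y ^ A ≤ x * (1 + t) ^ A := h4
      _ ≤ x * (1 + (2 ^ A - 1) * t) := mul_le_mul_of_nonneg_left h5 hx0.le
      _ = x + (2 ^ A - 1) * (x * t) := by ring
      _ = _ := by rw [e3]; ring

end

end Run7.h684.LD
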