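import Pool.Agent.Run7.h684.LD.Fin

/-!
# Forms of the theorem for the results
-/

set_option autoImplicit false

open MeasureTheory Filter Topology Set Polynomial

namespace Run7.h684.LD

noncomputable section

/-- the error term -/
def er (k : ℕ) (P : ℝ[X]) (x : ℝ) : ℝ := D k x - x * P.eval (Real.log x)

theorem D_mono (k : ℕ) {x y : ℝ} (h : x ≤ y) : D k x ≤ D k y := by
  unfold D
  refine Finset.sum_le_sum_of_subset_of_nonneg ?_ fun _ _ _ => Nat.cast_nonneg _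
  exact Finset.Icc_subset_Icc le_rfl (Nat.floor_le_floor h)

theorem D_nonneg (k : ℕ) (x : ℝ) : 0 ≤ D k x := Finset.sum_nonneg fun _ _ => Nat.cast_nonneg _

/-- an eventual bound is a bound with a constant -/
theorem const_of_ev {k : ℕ} {P : ℝ[X]} {a : ℝ} (ha : 0 ≤ a)
    (h : ∀ᶠ x : ℝ in atTop, |er k P x| ≤ x ^ a) :
    ∃ C : ℝ, ∀ x : ℝ, 1 ≤ x → |er k P x| ≤ C * x ^ a := by
  obtain ⟨x0, hx0⟩ := eventually_atTop.1 h
  set x1 : ℝ := max x0 1 with hx1
  have hc : ContinuousOn (fun x : ℝ => x * P.eval (Real.log x)) (Icc 1 x1) := by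
    intro x hx
    have hx' : x ≠ 0 := by
      have := hx.1
      linarith
    exact (continuousAt_id.mul ((P.continuous.continuousAt).comp (Real.continuousAt_log hx'))).continuousWithinAt
  obtain ⟨B, hB⟩ := isCompact_Icc.exists_bound_of_continuousOn hc
  have hB0 : 0 ≤ B := (norm_nonneg _).trans (hB 1 ⟨le_rfl, le_max_right _ _⟩)
  refine ⟨D k x1 + B + 1, fun x hx => ?_⟩
  have hx2 : 1 ≤ x ^ a := Real.one_le_rpow hx ha
  have hD := D_nonneg k x1
  by_cases hxx : x ≤ x1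
  · have h1 := hB x ⟨hx, hxx⟩
    rw [Real.norm_eq_abs] at h1
    have h2 : |er k P x| ≤ D k x1 + B := by
      unfold er
      refine (abs_sub _ _).trans ?_
      rw [abs_of_nonneg (D_nonneg k x)]
      exact add_le_add (D_mono k hxx) h1
    nlinarith
  · have h1 := hx0 x ((le_max_left _ _).trans (not_le.1 hxx).le)
    nlinarith

/-- a bound with a constant is an eventual bound with a larger exponent -/
theorem ev_of_const {k : ℕ} {P : ℝ[X]} {a b C : ℝ} (hab : a < b)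
    (h : ∀ x : ℝ, 1 ≤ x → |er k P x| ≤ C * x ^ a) : ∀ᶠ x : ℝ in atTop, |er k P x| ≤ x ^ b := by
  have h1 : ∀ᶠ x : ℝ in atTop, C ≤ x ^ (b - a) :=
    (tendsto_rpow_atTop (by linarith)).eventually_ge_atTop C
  filter_upwards [h1, eventually_ge_atTop (1 : ℝ)] with x g1 g2
  have hx0 : 0 < x := by linarith
  refine (h x g2).trans ?_
  have e1 : x ^ b = x ^ (b - a) * x ^ a := by
    rw [← Real.rpow_add hx0]
    congr 1
    ring
  rw [e1]
  exact mul_le_mul_of_nonneg_right g1 (Real.rpow_nonneg hx0.le _)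

/-- `α_k ≤ θ` -/
def AL (k : ℕ) (θ : ℝ) : Prop := ∀ a : ℝ, θ < a → ∃ (P : ℝ[X]) (C : ℝ), ∀ x : ℝ, 1 ≤ x → |er k P x| ≤ C * x ^ a

/-- few exceptions to a one-sided bound at the points of `Y` -/
def Fw (s : ℝ) (Y : Set ℝ) (τ : ℝ) (k : ℕ) (a : ℝ) : Prop := ∃ P : ℝ[X], MT k P ∧
  ∀ᶠ X : ℝ in atTop, ∀ T : Finset ℝ, (∀ y ∈ T, y ∈ Y ∧ X ≤ y ∧ y ≤ Real.exp 1 * X ∧
    y ^ a < s * er k P y) → (T.card : ℝ) < X ^ τ

theorem Fw_of_bound {s a : ℝ} (hs : s = 1 ∨ s = -1) {k : ℕ} {P : ℝ[X]} (hP : MT k P)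
    (h : ∀ᶠ x : ℝ in atTop, |er k P x| ≤ x ^ a) (Y : Set ℝ) (τ : ℝ) : Fw s Y τ k a := by
  refine ⟨P, hP, ?_⟩
  obtain ⟨x0, hx0⟩ := eventually_atTop.1 h
  filter_upwards [eventually_ge_atTop x0, eventually_gt_atTop (0 : ℝ)] with X hX hX0 T hT
  have hT0 : T = ∅ := by
    rw [Finset.eq_empty_iff_forall_notMem]
    intro y hy
    obtain ⟨_, g2, _, g4⟩ := hT y hy
    have h1 := hx0 y (hX.trans g2)
    have h2 : s * er k P y ≤ |er k P y| := by
      rcases hs with rfl | rfl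
      · rw [one_mul]; exact le_abs_self _
      · rw [neg_one_mul]; exact neg_le_abs _
    linarith
  rw [hT0, Finset.card_empty, Nat.cast_zero]
  exact Real.rpow_pos_of_pos hX0 _

/-- **The equivalences.** -/
theorem forms (hp : S_perron) (hi : S_inst) (hpol : S_polar) (hu : S_uniq) (hg : S_grow)
    (hL1 : Lr 1) {θ η s : ℝ} (hθ0 : 1 / 2 ≤ θ) (hθ1 : θ < 1) {Y : Set ℝ}
    (hη : 0 < η) (hη1 : η ≤ 1) (hY : Gp η Y) (hs : s = 1 ∨ s = -1) :
    List.TFAE [Lr θ, ∀ k : ℕ, AL k θ, ∀ a : ℝ, θ < a → ∃ δ : ℝ, 0 < δ ∧ ∀ K : ℕ, ∃ k : ℕ, K ≤ k ∧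
      Fw s Y (η - δ) k a] := by
  obtain ⟨C0, hY⟩ := hY
  tfae_have 1 → 2 := by
    intro hL k a ha
    obtain ⟨Q, hQ⟩ := pointwise hp hi hpol hθ0 hθ1 hL k
    have h1 := hQ (a - θ) (by linarith)
    have e1 : θ + (a - θ) = a := by ring
    rw [e1] at h1
    obtain ⟨C, hC⟩ := const_of_ev (P := Q) (by linarith) h1
    exact ⟨Q, C, hC⟩
  tfae_have 2 → 3 := by
    intro h a ha
    refine ⟨1, one_pos, fun K => ⟨K, le_rfl, ?_⟩⟩
    set b : ℝ := min a ((θ + 1) / 2) with hb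
    have hb1 : θ < b := lt_min ha (by linarith)
    have hb2 : b < 1 := (min_le_right _ _).trans_lt (by linarith)
    obtain ⟨P, C, hC⟩ := h K ((θ + b) / 2) (by linarith)
    have h1 := ev_of_const (b := b) (by linarith) hC
    have hM : MT K P := by
      intro ε hε
      have h2 : ∀ᶠ x : ℝ in atTop, ε⁻¹ ≤ x ^ (1 - b) :=
        (tendsto_rpow_atTop (by linarith)).eventually_ge_atTop _
      filter_upwards [h1, h2, eventually_gt_atTop (1 : ℝ)] with x hx1 hx2 hx3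
      have hx0 : 0 < x := by linarith
      refine (show |D K x - x * P.eval (Real.log x)| ≤ x ^ b from hx1).trans ?_
      have e1 : x = x ^ b * x ^ (1 - b) := by
        rw [← Real.rpow_add hx0]
        have : b + (1 - b) = 1 := by ring
        rw [this, Real.rpow_one]
      have h3 : 1 ≤ ε * x ^ (1 - b) := by
        rw [inv_le_iff_one_le_mul₀ hε] at hx2
        linarith [mul_comm ε (x ^ (1 - b))]
      have h4 : 0 ≤ x ^ b := Real.rpow_nonneg hx0.le _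
      calc x ^ b ≤ x ^ b * (ε * x ^ (1 - b)) := le_mul_of_one_le_right h4 h3
        _ = ε * (x ^ b * x ^ (1 - b)) := by ring
        _ = ε * x := by rw [← e1]
    refine Fw_of_bound hs hM ?_ Y _
    filter_upwards [h1, eventually_ge_atTop (1 : ℝ)] with x hx1 hx2
    exact hx1.trans (Real.rpow_le_rpow_of_exponent_le hx2 (min_le_left _ _))
  tfae_have 3 → 1 := by
    intro h
    refine descend hp hi hpol hu hg hL1 hθ0 hθ1 hη hη1 hY hs fun ε hε => ?_
    obtain ⟨δ, hδ, h1⟩ := h (θ + ε) (by linarith)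
    refine ⟨δ, hδ, fun K => ?_⟩
    obtain ⟨k, hk, P, hP, h2⟩ := h1 K
    exact ⟨k, hk, P, hP, h2⟩
  tfae_finish

/-- the fixed exponent form: with one exponent -/
theorem fixed (hp : S_perron) (hi : S_inst) (hpol : S_polar) (hu : S_uniq) (hg : S_grow)
    (hL1 : Lr 1) {η s : ℝ} {Y : Set ℝ}
    (hη : 0 < η) (hη1 : η ≤ 1) (hY : Gp η Y) (hs : s = 1 ∨ s = -1) {a δ : ℝ} (ha : a < 1) (hδ : 0 < δ)
    (h : ∀ K : ℕ, ∃ k : ℕ, K ≤ k ∧ Fw s Y (η - δ) k a) : Lr (max a (1 / 2)) := by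
  have key := (forms hp hi hpol hu hg hL1 (θ := max a (1 / 2)) (le_max_right _ _)
    (max_lt ha (by norm_num)) hη hη1 hY hs).out 0 2
  refine key.2 ?_
  intro b hb
  refine ⟨δ, hδ, fun K => ?_⟩
  obtain ⟨k, hk, P, hP, h2⟩ := h K
  refine ⟨k, hk, P, hP, ?_⟩
  filter_upwards [h2, eventually_ge_atTop (1 : ℝ)] with X hX hX1 T hT
  refine hX T fun y hy => ?_
  obtain ⟨g1, g2, g3, g4⟩ := hT y hy
  refine ⟨g1, g2, g3, lt_of_le_of_lt ?_ g4⟩
  exact Real.rpow_le_rpow_of_exponent_le (hX1.trans g2) ((le_max_left _ _).trans hb.le)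

/-- for points `n^A`: at most `N^(1-δ)` exceptions `n ≤ N` -/
theorem Fw_pow {A a δ s : ℝ} (hA : 1 ≤ A) (hδ : 0 < δ) (hδ1 : δ ≤ 1) {k : ℕ} {P : ℝ[X]} (hP : MT k P)
    (h : ∀ᶠ N : ℕ in atTop, ((Nat.card {n : ℕ | n ≤ N ∧ ((n : ℝ) ^ A) ^ a < s * er k P ((n : ℝ) ^ A)} : ℕ) : ℝ) ≤
      (N : ℝ) ^ (1 - δ)) :
    Fw s (Set.range fun n : ℕ => (n : ℝ) ^ A) (1 / A - δ / (2 * A)) k a := by
  classical
  have hA0 : 0 < A := by linarith
  refine ⟨P, hP, ?_⟩
  obtain ⟨N0, hN0⟩ := eventually_atTop.1 h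
  set e : ℝ := (Real.exp 1) ^ (1 / A) with he
  have he0 : 0 < e := by positivity
  have t1 : Tendsto (fun x : ℝ => x ^ (1 / A)) atTop atTop := tendsto_rpow_atTop (by positivity)
  have t2 : ∀ᶠ X : ℝ in atTop, (N0 : ℝ) + 1 ≤ e * X ^ (1 / A) :=
    (t1.const_mul_atTop he0).eventually_ge_atTop _
  have t3 : ∀ᶠ X : ℝ in atTop, (max 1 e) + 1 ≤ X ^ (δ / (2 * A)) :=
    (tendsto_rpow_atTop (by positivity)).eventually_ge_atTop _
  filter_upwards [t2, t3, eventually_gt_atTop (1 : ℝ)] with X h2 h3 hX1 T hT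
  have hX0 : 0 < X := by linarith
  set N : ℕ := ⌊e * X ^ (1 / A)⌋₊ with hN
  have hNle : (N : ℝ) ≤ e * X ^ (1 / A) := Nat.floor_le (by positivity)
  have hN1 : N0 ≤ N := Nat.le_floor (by linarith)
  have hNpos : (0 : ℝ) < N := by
    have : e * X ^ (1 / A) < N + 1 := Nat.lt_floor_add_one _
    have h4 : (0 : ℝ) ≤ N0 := Nat.cast_nonneg _
    have h5 : 1 ≤ e * X ^ (1 / A) := by linarith
    have h6 : 1 ≤ N := Nat.le_floor (by exact_mod_cast h5)
    exact_mod_cast h6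
  have h4 := hN0 N hN1
  -- the preimages
  set S : Set ℕ := {n : ℕ | n ≤ N ∧ ((n : ℝ) ^ A) ^ a < s * er k P ((n : ℝ) ^ A)} with hS
  have hSf : S.Finite := (Set.finite_Iic N).subset fun n hn => hn.1
  have hsub : T ⊆ hSf.toFinset.image (fun n : ℕ => (n : ℝ) ^ A) := by
    intro y hy
    obtain ⟨⟨n, hn⟩, g2, g3, g4⟩ := hT y hy
    rw [Finset.mem_image]
    refine ⟨n, ?_, hn⟩
    rw [Set.Finite.mem_toFinset]
    have hn' : (n : ℝ) ^ A = y := hn
    refine ⟨?_, by rw [hn']; exact g4⟩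
    apply Nat.le_floor
    have h5 : ((n : ℝ) ^ A) ^ (1 / A) ≤ (Real.exp 1 * X) ^ (1 / A) :=
      Real.rpow_le_rpow (by positivity) (by rw [hn']; exact g3) (by positivity)
    rw [← Real.rpow_mul (Nat.cast_nonneg n), mul_one_div_cancel hA0.ne', Real.rpow_one,
      Real.mul_rpow (Real.exp_pos _).le hX0.le] at h5
    exact h5
  have h5 : (T.card : ℝ) ≤ (N : ℝ) ^ (1 - δ) := by
    have h6 : T.card ≤ hSf.toFinset.card := (Finset.card_le_card hsub).trans Finset.card_image_le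
    have h7 : hSf.toFinset.card = Nat.card S := by
      rw [Nat.card_coe_set_eq, Set.ncard_eq_toFinset_card S hSf]
    rw [h7] at h6
    exact (by exact_mod_cast h6 : (T.card : ℝ) ≤ (Nat.card S : ℝ)).trans h4
  refine h5.trans_lt ?_
  -- `N^(1-δ) < X^(1/A - δ/(2A))`
  have h6 : (N : ℝ) ^ (1 - δ) ≤ (e * X ^ (1 / A)) ^ (1 - δ) :=
    Real.rpow_le_rpow hNpos.le hNle (by linarith)
  have h7 : (e * X ^ (1 / A)) ^ (1 - δ) = e ^ (1 - δ) * X ^ (1 / A - δ / A) := by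
    rw [Real.mul_rpow he0.le (Real.rpow_nonneg hX0.le _), ← Real.rpow_mul hX0.le]
    congr 2
    ring
  have h8 : e ^ (1 - δ) ≤ max 1 e := by
    rcases le_total 1 e with h9 | h9
    · refine le_trans ?_ (le_max_right _ _)
      calc e ^ (1 - δ) ≤ e ^ (1 : ℝ) := Real.rpow_le_rpow_of_exponent_le h9 (by linarith)
        _ = e := Real.rpow_one e
    · refine le_trans ?_ (le_max_left _ _)
      exact Real.rpow_le_one he0.le h9 (by linarith)
  have h10 : X ^ (1 / A - δ / (2 * A)) = X ^ (δ / (2 * A)) * X ^ (1 / A - δ / A) := by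
    rw [← Real.rpow_add hX0]
    congr 1
    field_simp
    ring
  rw [h7] at h6
  refine h6.trans_lt ?_
  rw [h10]
  have h11 : 0 < X ^ (1 / A - δ / A) := Real.rpow_pos_of_pos hX0 _
  exact mul_lt_mul_of_pos_right (by linarith) h11

end

end Run7.h684.LD
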