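import Pool.Agent.Run7.h684.LD.Cnt
import Pool.Agent.TH988.RB.Lan

/-!
# From the windows to the abscissa of convergence
-/

set_option autoImplicit false

open MeasureTheory Filter Topology Set
open Pool.Agent.H295R2 (Nice Lap)
open Pool.Agent.W263.BSD (LInt lap lapC)

namespace Run7.h684.LD

open Run7.h684.OS (Phi phi_sign)

noncomputable section

variable {E : ℝ → ℂ} {F : ℂ → ℂ} {Θ : ℝ} {φ : ℂ → ℝ}

/-- small windows give convergence -/
theorem lint_of_win (hφ : Phi φ) (h : Dt E F Θ) {τ : ℝ} (hτ : 0 ≤ τ)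
    (hw : ∀ᶠ X : ℝ in atTop, ∫ v in (Real.log X)..(Real.log X + 1), φ (E v) ≤ X ^ τ)
    {w : ℝ} (hwτ : τ < w) : LInt (fun u => φ (E u)) w := by
  set f : ℝ → ℝ := fun u => φ (E u) * Real.exp (-(w * u)) with hf
  have hf0 : ∀ u, 0 ≤ f u := fun u => mul_nonneg (hφ.nn _) (Real.exp_pos _).le
  have hcont : Continuous fun u : ℝ => Real.exp (-(w * u)) := by fun_prop
  have hii : ∀ x y : ℝ, IntervalIntegrable f volume x y := fun x y =>
    (phi_ii hφ h x y).mul_continuousOn hcont.continuousOn
  set a : ℕ → ℝ := fun j => ∫ u in (j : ℝ)..((j + 1 : ℕ) : ℝ), f u with ha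
  have ha0 : ∀ j, 0 ≤ a j := fun j => by
    refine intervalIntegral.integral_nonneg ?_ fun u _ => hf0 u
    push_cast
    linarith
  set r : ℝ := Real.exp (-(w - τ)) with hr
  have hr0 : 0 ≤ r := (Real.exp_pos _).le
  have hr1 : r < 1 := by rw [hr, Real.exp_lt_one_iff]; linarith
  have hsum : Summable a := by
    refine Summable.of_norm_bounded_eventually_nat (summable_geometric_of_lt_one hr0 hr1) ?_
    have h1 : Tendsto (fun j : ℕ => Real.exp (j : ℝ)) atTop atTop :=
      Real.tendsto_exp_atTop.comp tendsto_natCast_atTop_atTop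
    filter_upwards [h1.eventually hw] with j hj
    rw [Real.norm_of_nonneg (ha0 j)]
    rw [Real.log_exp] at hj
    have e1 : Real.exp (j : ℝ) ^ τ = Real.exp (j * τ) := by rw [← Real.exp_mul]
    rw [e1] at hj
    have hle : (j : ℝ) ≤ j + 1 := by linarith
    calc a j = ∫ u in (j : ℝ)..(j + 1), f u := by rw [ha]; push_cast; rfl
      _ ≤ ∫ u in (j : ℝ)..(j + 1), Real.exp (-(w * j)) * φ (E u) := by
          refine intervalIntegral.integral_mono_on hle (hii _ _) ((phi_ii hφ h _ _).const_mul _)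
            fun u hu => ?_
          rw [hf]
          simp only
          rw [mul_comm]
          refine mul_le_mul_of_nonneg_right (Real.exp_le_exp.2 ?_) (hφ.nn _)
          have := mul_le_mul_of_nonneg_left hu.1 (show 0 ≤ w by linarith)
          linarith
      _ = Real.exp (-(w * j)) * ∫ u in (j : ℝ)..(j + 1), φ (E u) := by
          rw [intervalIntegral.integral_const_mul]
      _ ≤ Real.exp (-(w * j)) * Real.exp (j * τ) := mul_le_mul_of_nonneg_left hj (Real.exp_pos _).le
      _ = r ^ j := by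
          rw [hr, ← Real.exp_add, ← Real.exp_nat_mul]
          congr 1
          ring
  refine integrableOn_Ioi_of_intervalIntegral_norm_bounded (∑' j, a j) 0 (b := fun N : ℕ => (N : ℝ))
    (l := atTop) (fun N => ?_) tendsto_natCast_atTop_atTop (Eventually.of_forall fun N => ?_)
  · have h1 := hii 0 (N : ℝ)
    rwa [intervalIntegrable_iff_integrableOn_Ioc_of_le (Nat.cast_nonneg N)] at h1
  · have h2 := intervalIntegral.sum_integral_adjacent_intervals (f := f) (μ := volume)
      (a := fun i : ℕ => (i : ℝ)) (n := N) (fun k _ => hii _ _)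
    rw [Nat.cast_zero] at h2
    have h3 : ∫ x in (0 : ℝ)..(N : ℝ), ‖f x‖ = ∫ x in (0 : ℝ)..(N : ℝ), f x := by
      congr 1
      funext x
      exact Real.norm_of_nonneg (hf0 x)
    change ∫ x in (0 : ℝ)..(N : ℝ), ‖f x‖ ≤ _
    rw [h3, ← h2]
    exact hsum.sum_le_tsum _ fun j _ => ha0 j

theorem real_analytic {G : ℂ → ℂ} {w : ℝ} (hG : AnalyticAt ℂ G (w : ℂ)) :
    AnalyticAt ℝ (fun x : ℝ => (G (x : ℂ)).re) w := by
  have h1 : AnalyticAt ℝ (fun x : ℝ => (x : ℂ)) w := Complex.ofRealCLM.analyticAt w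
  have h2 : AnalyticAt ℝ G ((fun x : ℝ => (x : ℂ)) w) := hG.restrictScalars
  have h3 : AnalyticAt ℝ (fun x : ℝ => G (x : ℂ)) w := h2.comp h1
  exact (Complex.reCLM.analyticAt _).comp h3

/-- the two Laplace transforms -/
theorem lapC_eq_Lap {R : ℝ → ℝ} (hR : ∀ u : ℝ, u < 0 → R u = 0) (s : ℂ) :
    lapC R s = Lap (fun u => (R u : ℂ)) s := by
  unfold lapC Lap
  rw [← integral_Ici_eq_integral_Ioi]
  refine setIntegral_eq_integral_of_forall_compl_eq_zero fun u hu => ?_
  rw [hR u (by simpa using hu)]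
  simp

/-- **One-sided bounds.** -/
theorem one_sided {R : ℝ → ℝ} (hm : Measurable R) (hR : ∀ u : ℝ, u < 0 → R u = 0) {H : ℂ → ℂ}
    {θ' w1 s : ℝ} (hs : s = 1 ∨ s = -1) (h1 : ∀ w > w1, LInt R w)
    (hH : ∀ z : ℂ, θ' < z.re → DifferentiableAt ℂ H z)
    (heq : ∀ z : ℂ, w1 < z.re → Lap (fun u => (R u : ℂ)) z = H z)
    (hφ : ∀ w > θ', LInt (fun u => max (s * R u) 0) w) :
    (∀ w > θ', LInt R w) ∧ ∀ z : ℂ, θ' < z.re → lapC R z = H z := by
  have hs2 : s * s = 1 := by rcases hs with rfl | rfl <;> norm_num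
  set p : ℝ → ℝ := fun u => max (s * R u) 0 with hp
  set f : ℝ → ℝ := fun u => p u - s * R u with hf
  have hpm : Measurable p := (hm.const_mul s).max measurable_const
  have hfm : Measurable f := hpm.sub (hm.const_mul s)
  have hf0 : ∀ u, 0 < u → 0 ≤ f u := by
    intro u _
    rw [hf]
    simp only
    have := le_max_left (s * R u) 0
    rw [hp]
    simp only
    linarith
  set G : ℂ → ℂ := fun z => lapC p z - s * H z with hG
  have hGd : ∀ z : ℂ, θ' < z.re → DifferentiableAt ℂ G z := fun z hz =>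
    (Pool.Agent.W263.BSD.lapC_differentiableAt hpm hφ hz).sub ((hH z hz).const_mul _)
  have hopen : IsOpen {z : ℂ | θ' < z.re} := isOpen_lt continuous_const Complex.continuous_re
  have hGa : ∀ w : ℝ, θ' < w → AnalyticAt ℂ G (w : ℂ) := by
    intro w hw
    have h2 : DifferentiableOn ℂ G {z : ℂ | θ' < z.re} := fun z hz => (hGd z hz).differentiableWithinAt
    exact h2.analyticAt (hopen.mem_nhds (by simpa using hw))
  have hL := Pool.Agent.TH988.RB.landau_lap hfm hf0 (a := θ') (w1 := max w1 θ')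
    (fun w hw => ((hφ w ((le_max_right _ _).trans_lt hw)).sub
      ((h1 w ((le_max_left _ _).trans_lt hw)).const_mul s))) (g := fun w => (G (w : ℂ)).re)
    (fun w hw => real_analytic (hGa w hw)) (by
      intro w hw hw'
      have hw1 : w1 < w := (le_max_left _ _).trans_lt hw
      have e1 : lap f w = lap p w - s * lap R w := by
        rw [hf, Pool.Agent.W263.BSD.lap_sub (hφ w hw') ((h1 w hw1).const_mul s),
          Pool.Agent.W263.BSD.lap_const_mul]
      have e2 : H w = (lap R w : ℂ) := by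
        rw [← heq w (by simpa using hw1), ← lapC_eq_Lap hR, Pool.Agent.W263.BSD.lapC_ofReal]
      rw [e1, hG]
      simp only
      rw [e2, Pool.Agent.W263.BSD.lapC_ofReal]
      simp)
  have hLR : ∀ w > θ', LInt R w := by
    intro w hw
    have h2 := ((hφ w hw).sub (hL.1 w hw)).const_mul s
    refine h2.congr (Eventually.of_forall fun u => ?_)
    simp only [hf, hp]
    have : s * (max (s * R u) 0 - (max (s * R u) 0 - s * R u)) = (s * s) * R u := by ring
    rw [this, hs2, one_mul]
  refine ⟨hLR, fun z hz => ?_⟩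
  have hd1 : DifferentiableOn ℂ (lapC R) {z : ℂ | θ' < z.re} := fun z hz =>
    (Pool.Agent.W263.BSD.lapC_differentiableAt hm hLR hz).differentiableWithinAt
  have hd2 : DifferentiableOn ℂ H {z : ℂ | θ' < z.re} := fun z hz => (hH z hz).differentiableWithinAt
  set z0 : ℂ := ((max w1 θ' + 1 : ℝ) : ℂ) with hz0
  have hz0re : z0.re = max w1 θ' + 1 := by rw [hz0, Complex.ofReal_re]
  have hmem : z0 ∈ {z : ℂ | θ' < z.re} := by
    change θ' < z0.re
    rw [hz0re]
    linarith [le_max_right w1 θ']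
  have hev : lapC R =ᶠ[𝓝 z0] H := by
    have ho : IsOpen {z : ℂ | w1 < z.re} := isOpen_lt continuous_const Complex.continuous_re
    have hm' : z0 ∈ {z : ℂ | w1 < z.re} := by
      change w1 < z0.re
      rw [hz0re]
      linarith [le_max_left w1 θ']
    filter_upwards [ho.mem_nhds hm'] with z hz
    rw [lapC_eq_Lap hR, heq z hz]
  exact (hd1.analyticOnNhd hopen).eqOn_of_preconnected_of_eventuallyEq (hd2.analyticOnNhd hopen)
    (convex_halfSpace_re_gt θ').isPreconnected hmem hev hz

/-- the Laplace transform is bounded to the right -/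
theorem lapC_bound {R : ℝ → ℝ} (hm : Measurable R) {σ : ℝ} (h : LInt R σ) :
    ∃ C : ℝ, 0 ≤ C ∧ ∀ z : ℂ, σ ≤ z.re → ‖lapC R z‖ ≤ C := by
  refine ⟨∫ u in Ioi (0 : ℝ), ‖R u * Real.exp (-(σ * u))‖,
    integral_nonneg fun u => norm_nonneg _, fun z hz => ?_⟩
  unfold lapC
  refine norm_integral_le_of_norm_le h.norm ?_
  refine (ae_restrict_iff' measurableSet_Ioi).mpr (Eventually.of_forall fun u hu => ?_)
  have hu' : (0 : ℝ) < u := hu
  rw [norm_mul, norm_mul, Complex.norm_exp, Complex.norm_real, Real.norm_of_nonneg (Real.exp_pos _).le]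
  refine mul_le_mul_of_nonneg_left (Real.exp_le_exp.2 ?_) (norm_nonneg _)
  have : (-(z * (u : ℂ))).re = -(z.re * u) := by simp
  rw [this]
  have := mul_le_mul_of_nonneg_right hz hu'.le
  linarith

end

end Run7.h684.LD
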