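import Pool.Agent.Run7.h684.LD.Lan
import Pool.Agent.Run7.h684.LD.Def2

/-!
# Descent of the exponent
-/

set_option autoImplicit false

open MeasureTheory Filter Topology Set Polynomial
open Pool.Agent.H295R2 (Nice Lap)
open Pool.Agent.W263.BSD (LInt lap lapC)

namespace Run7.h684.LD

open Run7.h684.OS (Phi phi_sign)

noncomputable section

variable {E : ℝ → ℂ} {F : ℂ → ℂ} {θ : ℝ}

/-- Perron's formula turns the formal data into the data of the mean square method -/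
theorem Dt_of_Pr (hp : S_perron) (h : Pr E F θ) : Dt E F θ := by
  have hsum : ∀ σ : ℝ, θ < σ → ∃ C : ℝ, 0 ≤ C ∧ ∀ u : ℝ, 0 ≤ u → ‖E u‖ ≤ C * Real.exp (σ * u) :=
    fun σ hσ => hp E F θ h σ hσ
  have hnice : ∀ σ : ℝ, θ < σ → ∃ C : ℝ, Nice E C σ 0 := by
    intro σ hσ
    obtain ⟨C, hC0, hC⟩ := hsum σ hσ
    refine ⟨C, h.meas, fun u => ?_, fun u hu => h.zero u hu⟩
    by_cases hu : 0 ≤ u
    · exact hC u hu
    · rw [h.zero u (not_le.1 hu), norm_zero]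
      positivity
  have hd1 : DifferentiableOn ℂ (fun s => s * Lap E s) {s : ℂ | θ < s.re} := by
    intro s hs
    have hs' : θ < s.re := hs
    obtain ⟨C, hC⟩ := hnice ((θ + s.re) / 2) (by linarith)
    exact (differentiableAt_id.mul (hC.Lap_differentiableAt (by linarith))).differentiableWithinAt
  have hd2 : DifferentiableOn ℂ F {s : ℂ | θ < s.re} := fun s hs =>
    (h.dif s hs).differentiableWithinAt
  have hopen : IsOpen {z : ℂ | θ < z.re} := isOpen_lt continuous_const Complex.continuous_re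
  have hmem : (2 : ℂ) ∈ {z : ℂ | θ < z.re} := by
    change θ < (2 : ℂ).re
    have := h.h1
    rw [Complex.re_ofNat]
    linarith
  have hev : (fun s => s * Lap E s) =ᶠ[𝓝 (2 : ℂ)] F := by
    have ho : IsOpen {z : ℂ | 1 < z.re} := isOpen_lt continuous_const Complex.continuous_re
    have hm' : (2 : ℂ) ∈ {z : ℂ | 1 < z.re} := by
      change 1 < (2 : ℂ).re
      rw [Complex.re_ofNat]
      norm_num
    filter_upwards [ho.mem_nhds hm'] with z hz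
    exact h.lap z hz
  have heq := (hd1.analyticOnNhd hopen).eqOn_of_preconnected_of_eventuallyEq
    (hd2.analyticOnNhd hopen) (convex_halfSpace_re_gt θ).isPreconnected hmem hev
  refine ⟨by linarith [h.h0], h.meas, h.zero, h.fin, hsum, fun s hs => heq hs, fun σ ε hσ hσ2 hε => ?_⟩
  obtain ⟨C, hC0, hC⟩ := h.gro σ ε hσ hε
  refine ⟨C, hC0, fun t => ?_⟩
  have h1 : ((σ : ℂ) + t * Complex.I).re = σ := by simp
  have h2 : ((σ : ℂ) + t * Complex.I).im = t := by simp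
  have := hC (σ + t * Complex.I) (by rw [h1]) (by rw [h1]; exact hσ2)
  rwa [h2] at this

/-- the main term is determined up to `o(x)` -/
def MT (k : ℕ) (Q : ℝ[X]) : Prop :=
  ∀ ε : ℝ, 0 < ε → ∀ᶠ x : ℝ in atTop, |D k x - x * Q.eval (Real.log x)| ≤ ε * x

theorem eval_map_real (Q : ℝ[X]) (u : ℝ) :
    (Q.map Complex.ofRealHom).eval (u : ℂ) = ((Q.eval u : ℝ) : ℂ) := by
  have := Polynomial.eval_map_apply (f := Complex.ofRealHom) (p := Q) u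
  simpa using this

/-- the error term at one `k` -/
theorem one_k (hp : S_perron) (hi : S_inst) (hpol : S_polar) (hu : S_uniq)
    {Θ θ' η δ κ C0 s : ℝ} (hΘ : 1 / 2 < Θ) (hΘ1 : Θ ≤ 1) (hL : Lr Θ) {Y : Set ℝ}
    (hη : 0 < η) (hη1 : η ≤ 1)
    (hY : ∀ᶠ x : ℝ in atTop, ∃ y ∈ Y, x ≤ y ∧ y ≤ x + C0 * x ^ (1 - η))
    (hs : s = 1 ∨ s = -1) (hθ0 : 0 ≤ θ') (hθ : θ' < Θ) (hκ0 : 0 < κ) (hκ1 : κ ≤ 1 / 16)
    (hκ2 : κ ≤ η / 16) (hκ3 : κ ≤ δ / 4) (hκ4 : κ ≤ (Θ - θ') / 4)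
    {k : ℕ} {Q : ℝ[X]} (hQ : MT k Q)
    (hyp : ∀ᶠ X : ℝ in atTop, ∀ T : Finset ℝ, (∀ y ∈ T, y ∈ Y ∧ X ≤ y ∧ y ≤ Real.exp 1 * X ∧
      y ^ θ' < s * (D k y - y * Q.eval (Real.log y))) → (T.card : ℝ) < X ^ (η - δ)) :
    ∃ (P : ℂ[X]) (H : ℂ → ℂ), PH k P H ∧ ∀ σ : ℝ, Θ - κ < σ → ∃ C : ℝ, ∀ z : ℂ, σ ≤ z.re → ‖H z‖ ≤ C := by
  obtain ⟨P, H, hPH1, hPH2⟩ := hpol k
  have hPH : PH k P H := ⟨hPH1, hPH2⟩
  have hPQ : Q.map Complex.ofRealHom = P := hu k P H hPH Q hQ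
  refine ⟨P, H, hPH, ?_⟩
  set R : ℝ → ℝ := fun u => if u < 0 then 0 else D k (Real.exp u) - Real.exp u * Q.eval u with hR
  have hER : EP k P = fun u => (R u : ℂ) := by
    funext u
    unfold EP
    rw [hR]
    simp only
    split_ifs with hu0
    · simp
    · rw [← hPQ, eval_map_real]
      push_cast
      ring
  have hPr : Pr (EP k P) (fun s => s * H s) Θ := hi Θ (by linarith) hΘ1 hL k P H hPH
  rw [hER] at hPr
  have hDt := Dt_of_Pr hp hPr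
  have hφ : Phi (fun z : ℂ => max (s * z.re) 0) := phi_sign hs
  have hmeas : Measurable R := by
    have h1 := Complex.measurable_re.comp hPr.meas
    have e1 : (Complex.re ∘ fun u => (R u : ℂ)) = R := by
      funext u
      simp
    rwa [e1] at h1
  have key := main_phi hφ hDt hΘ.le hΘ1 Y hη hη1 one_pos hY hθ0 hθ hκ0 hκ1 hκ2 hκ3 hκ4
  have hwin : ∀ᶠ X : ℝ in atTop,
      ∫ v in (Real.log X)..(Real.log X + 1), (fun z : ℂ => max (s * z.re) 0) ((R v : ℂ)) ≤ X ^ (Θ - κ) := by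
    filter_upwards [key, hyp, eventually_gt_atTop (1 : ℝ)] with X h1 h2 h3
    by_contra hcon
    rw [not_le] at hcon
    obtain ⟨T, hT, hcard⟩ := h1 hcon
    refine absurd (h2 T fun y hy => ?_) (not_lt.2 hcard)
    obtain ⟨g1, g2, g3, g4⟩ := hT y hy
    refine ⟨g1, g2, g3, ?_⟩
    have hy1 : 1 < y := h3.trans_le g2
    have hy0 : 0 < y := by linarith
    have hlog : ¬ Real.log y < 0 := not_lt.2 (Real.log_nonneg hy1.le)
    simp only [Complex.ofReal_re] at g4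
    have e1 : R (Real.log y) = D k y - y * Q.eval (Real.log y) := by
      rw [hR]
      simp only
      rw [if_neg hlog, Real.exp_log hy0]
    rw [e1] at g4
    have h5 : 0 < y ^ θ' := Real.rpow_pos_of_pos hy0 _
    rcases lt_max_iff.1 g4 with h6 | h6
    · exact h6
    · linarith
  have hτ : 0 ≤ Θ - κ := by linarith
  have hlint : ∀ w > Θ - κ, LInt (fun u => max (s * R u) 0) w := by
    intro w hw
    have h1 := lint_of_win hφ hDt hτ hwin hw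
    simpa using h1
  have h1 : ∀ w > (1 : ℝ), LInt R w := by
    intro w hw
    obtain ⟨C, hN⟩ := hDt.nice (σ := (1 + w) / 2) (by linarith)
    have h2 := hN.integrable (s := (w : ℂ)) (by rw [Complex.ofReal_re]; linarith)
    have h3 := h2.re.integrableOn (s := Ioi (0 : ℝ))
    refine h3.congr (Eventually.of_forall fun u => ?_)
    have h4 : Complex.exp (-((w : ℂ) * (u : ℂ))) = ((Real.exp (-(w * u)) : ℝ) : ℂ) := by
      push_cast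
      rfl
    change RCLike.re ((R u : ℂ) * Complex.exp (-((w : ℂ) * (u : ℂ)))) = R u * Real.exp (-(w * u))
    rw [h4, ← Complex.ofReal_mul]
    exact Complex.ofReal_re _
  have heq : ∀ z : ℂ, 1 < z.re → Lap (fun u => (R u : ℂ)) z = H z := by
    intro z hz
    have h2 := hPr.lap z hz
    have hz0 : z ≠ 0 := by
      intro h0
      rw [h0, Complex.zero_re] at hz
      linarith
    exact mul_left_cancel₀ hz0 h2
  obtain ⟨g1, g2⟩ := one_sided hmeas (fun u hu0 => by rw [hR]; simp only; rw [if_pos hu0]) hs h1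
    (θ' := Θ - κ) (fun z hz => hPH1 z (by linarith)) heq hlint
  intro σ hσ
  obtain ⟨C, _, hC⟩ := lapC_bound hmeas (g1 σ hσ)
  refine ⟨C, fun z hz => ?_⟩
  rw [← g2 z (hσ.trans_le hz)]
  exact hC z hz

/-- the step of the descent -/
theorem step (hp : S_perron) (hi : S_inst) (hpol : S_polar) (hu : S_uniq) (hg : S_grow)
    {Θ θ' η δ κ C0 s : ℝ} (hΘ : 1 / 2 < Θ) (hΘ1 : Θ ≤ 1) (hL : Lr Θ) {Y : Set ℝ}
    (hη : 0 < η) (hη1 : η ≤ 1)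
    (hY : ∀ᶠ x : ℝ in atTop, ∃ y ∈ Y, x ≤ y ∧ y ≤ x + C0 * x ^ (1 - η))
    (hs : s = 1 ∨ s = -1) (hθ0 : 0 ≤ θ') (hθ : θ' < Θ) (hκ0 : 0 < κ) (hκ1 : κ ≤ 1 / 16)
    (hκ2 : κ ≤ η / 16) (hκ3 : κ ≤ δ / 4) (hκ4 : κ ≤ (Θ - θ') / 4)
    (hyp : ∀ K : ℕ, ∃ k : ℕ, K ≤ k ∧ ∃ Q : ℝ[X], MT k Q ∧
      ∀ᶠ X : ℝ in atTop, ∀ T : Finset ℝ, (∀ y ∈ T, y ∈ Y ∧ X ≤ y ∧ y ≤ Real.exp 1 * X ∧
        y ^ θ' < s * (D k y - y * Q.eval (Real.log y))) → (T.card : ℝ) < X ^ (η - δ)) :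
    Lr (Θ - κ) := by
  refine hg (Θ - κ) (by linarith) fun σ hσ K => ?_
  obtain ⟨k, hk, Q, hQ, hT⟩ := hyp K
  obtain ⟨P, H, h1, h2⟩ := one_k hp hi hpol hu hΘ hΘ1 hL hη hη1 hY hs hθ0 hθ hκ0 hκ1 hκ2 hκ3 hκ4 hQ hT
  exact ⟨k, hk, P, H, h1, h2 σ hσ⟩

/-- **The descent.** -/
theorem descend (hp : S_perron) (hi : S_inst) (hpol : S_polar) (hu : S_uniq) (hg : S_grow)
    (hL1 : Lr 1) {θ η C0 s : ℝ} (hθ0 : 1 / 2 ≤ θ) (hθ1 : θ < 1) {Y : Set ℝ}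
    (hη : 0 < η) (hη1 : η ≤ 1)
    (hY : ∀ᶠ x : ℝ in atTop, ∃ y ∈ Y, x ≤ y ∧ y ≤ x + C0 * x ^ (1 - η))
    (hs : s = 1 ∨ s = -1)
    (hyp : ∀ ε : ℝ, 0 < ε → ∃ δ : ℝ, 0 < δ ∧ ∀ K : ℕ, ∃ k : ℕ, K ≤ k ∧ ∃ Q : ℝ[X], MT k Q ∧
      ∀ᶠ X : ℝ in atTop, ∀ T : Finset ℝ, (∀ y ∈ T, y ∈ Y ∧ X ≤ y ∧ y ≤ Real.exp 1 * X ∧
        y ^ (θ + ε) < s * (D k y - y * Q.eval (Real.log y))) → (T.card : ℝ) < X ^ (η - δ)) :
    Lr θ := by
  set A : Set ℝ := {Θ : ℝ | θ ≤ Θ ∧ Θ ≤ 1 ∧ Lr Θ} with hA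
  have hne : A.Nonempty := ⟨1, hθ1.le, le_rfl, hL1⟩
  have hbdd : BddBelow A := ⟨θ, fun Θ hΘ => hΘ.1⟩
  set Z : ℝ := sInf A with hZ
  have hZθ : θ ≤ Z := le_csInf hne fun Θ hΘ => hΘ.1
  have hZ1 : Z ≤ 1 := csInf_le hbdd ⟨hθ1.le, le_rfl, hL1⟩
  have hZL : Lr Z := by
    intro σ ε hσ hε
    obtain ⟨Θ, hΘ, hΘσ⟩ := exists_lt_of_csInf_lt hne (hZ ▸ hσ : sInf A < σ)
    exact hΘ.2.2 σ ε hΘσ hε
  rcases hZθ.eq_or_lt with h0 | h0
  · rw [h0]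
    exact hZL
  exfalso
  set ε : ℝ := (Z - θ) / 2 with hε
  have hε0 : 0 < ε := by rw [hε]; linarith
  obtain ⟨δ, hδ, hyp'⟩ := hyp ε hε0
  set κ : ℝ := min (min (1 / 16) (η / 16)) (min (δ / 4) ((Z - (θ + ε)) / 4)) with hκ
  have hκ1 : κ ≤ 1 / 16 := (min_le_left _ _).trans (min_le_left _ _)
  have hκ2 : κ ≤ η / 16 := (min_le_left _ _).trans (min_le_right _ _)
  have hκ3 : κ ≤ δ / 4 := (min_le_right _ _).trans (min_le_left _ _)
  have hκ4 : κ ≤ (Z - (θ + ε)) / 4 := (min_le_right _ _).trans (min_le_right _ _)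
  have hκ0 : 0 < κ := by
    rw [hκ]
    refine lt_min (lt_min (by norm_num) (by linarith)) (lt_min (by linarith) ?_)
    rw [hε]
    linarith
  have h1 := step hp hi hpol hu hg (Θ := Z) (θ' := θ + ε) (η := η) (δ := δ) (κ := κ) (C0 := C0) (s := s)
    (by linarith) hZ1 hZL hη hη1 hY hs (by linarith) (by rw [hε]; linarith) hκ0 hκ1 hκ2 hκ3 hκ4 hyp'
  have h2 : Z - κ ∈ A := ⟨by rw [hε] at hκ4; linarith, by linarith, h1⟩
  have h3 : Z ≤ Z - κ := csInf_le hbdd h2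
  linarith

/-- the real part of a polynomial -/
def reP (P : ℂ[X]) : ℝ[X] := ∑ i ∈ Finset.range (P.natDegree + 1), Polynomial.monomial i (P.coeff i).re

theorem reP_eval (P : ℂ[X]) (u : ℝ) : (reP P).eval u = (P.eval (u : ℂ)).re := by
  unfold reP
  rw [Polynomial.eval_finsetSum, Polynomial.eval_eq_sum_range, Complex.re_sum]
  refine Finset.sum_congr rfl fun i _ => ?_
  rw [Polynomial.eval_monomial, ← Complex.ofReal_pow, Complex.re_mul_ofReal]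

/-- **Pointwise bounds.** -/
theorem pointwise (hp : S_perron) (hi : S_inst) (hpol : S_polar)
    (hθ0 : 1 / 2 ≤ θ) (hθ1 : θ < 1) (hL : Lr θ) (k : ℕ) :
    ∃ Q : ℝ[X], ∀ ε : ℝ, 0 < ε → ∀ᶠ x : ℝ in atTop, |D k x - x * Q.eval (Real.log x)| ≤ x ^ (θ + ε) := by
  obtain ⟨P, H, hPH1, hPH2⟩ := hpol k
  have hPr : Pr (EP k P) (fun s => s * H s) θ := hi θ (by linarith) hθ1.le hL k P H ⟨hPH1, hPH2⟩
  refine ⟨reP P, fun ε hε => ?_⟩
  obtain ⟨C, hC0, hC⟩ := hp _ _ _ hPr (θ + ε / 2) (by linarith)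
  have h1 : ∀ᶠ x : ℝ in atTop, C ≤ x ^ (ε / 2) :=
    (tendsto_rpow_atTop (by linarith)).eventually_ge_atTop C
  filter_upwards [h1, eventually_gt_atTop (1 : ℝ)] with x hx1 hx2
  have hx0 : 0 < x := by linarith
  have hlog : 0 ≤ Real.log x := Real.log_nonneg hx2.le
  have h2 := hC (Real.log x) hlog
  unfold EP at h2
  rw [if_neg (not_lt.2 hlog), Real.exp_log hx0] at h2
  have e1 : D k x - x * (reP P).eval (Real.log x) =
      (((D k x : ℝ) : ℂ) - (x : ℂ) * P.eval ((Real.log x : ℝ) : ℂ)).re := by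
    rw [reP_eval, Complex.sub_re, Complex.ofReal_re, Complex.re_ofReal_mul]
  rw [e1]
  have e2 : Real.exp ((θ + ε / 2) * Real.log x) = x ^ (θ + ε / 2) := by
    rw [Real.rpow_def_of_pos hx0, mul_comm]
  rw [e2] at h2
  refine (Complex.abs_re_le_norm _).trans (h2.trans ?_)
  have e3 : x ^ (θ + ε) = x ^ (ε / 2) * x ^ (θ + ε / 2) := by
    rw [← Real.rpow_add hx0]
    congr 1
    ring
  rw [e3]
  exact mul_le_mul_of_nonneg_right hx1 (Real.rpow_nonneg hx0.le _)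

/-- a power saving determines the main term -/
theorem MT_of_bound {k : ℕ} {Q : ℝ[X]} (hθ1 : θ < 1)
    (h : ∀ ε : ℝ, 0 < ε → ∀ᶠ x : ℝ in atTop, |D k x - x * Q.eval (Real.log x)| ≤ x ^ (θ + ε)) : MT k Q := by
  intro ε hε
  have h1 := h ((1 - θ) / 2) (by linarith)
  have h2 : ∀ᶠ x : ℝ in atTop, ε⁻¹ ≤ x ^ ((1 - θ) / 2) :=
    (tendsto_rpow_atTop (by linarith)).eventually_ge_atTop _
  filter_upwards [h1, h2, eventually_gt_atTop (1 : ℝ)] with x hx1 hx2 hx3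
  have hx0 : 0 < x := by linarith
  refine hx1.trans ?_
  have e1 : x = x ^ (θ + (1 - θ) / 2) * x ^ ((1 - θ) / 2) := by
    rw [← Real.rpow_add hx0]
    have : θ + (1 - θ) / 2 + (1 - θ) / 2 = 1 := by ring
    rw [this, Real.rpow_one]
  have h3 : 1 ≤ ε * x ^ ((1 - θ) / 2) := by
    rw [inv_le_iff_one_le_mul₀ hε] at hx2
    linarith [mul_comm ε (x ^ ((1 - θ) / 2))]
  have h4 : 0 ≤ x ^ (θ + (1 - θ) / 2) := Real.rpow_nonneg hx0.le _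
  calc x ^ (θ + (1 - θ) / 2) ≤ x ^ (θ + (1 - θ) / 2) * (ε * x ^ ((1 - θ) / 2)) :=
        le_mul_of_one_le_right h4 h3
    _ = ε * (x ^ (θ + (1 - θ) / 2) * x ^ ((1 - θ) / 2)) := by ring
    _ = ε * x := by rw [← e1]

/-- **The equivalences.** -/
theorem equivalences (hp : S_perron) (hi : S_inst) (hpol : S_polar) (hu : S_uniq) (hg : S_grow)
    (hL1 : Lr 1) {η C0 s : ℝ} (hθ0 : 1 / 2 ≤ θ) (hθ1 : θ < 1) {Y : Set ℝ}
    (hη : 0 < η) (hη1 : η ≤ 1)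
    (hY : ∀ᶠ x : ℝ in atTop, ∃ y ∈ Y, x ≤ y ∧ y ≤ x + C0 * x ^ (1 - η))
    (hs : s = 1 ∨ s = -1) :
    (Lr θ ↔ ∀ k : ℕ, ∃ Q : ℝ[X], ∀ ε : ℝ, 0 < ε → ∀ᶠ x : ℝ in atTop,
      |D k x - x * Q.eval (Real.log x)| ≤ x ^ (θ + ε)) ∧
    (Lr θ ↔ ∀ ε : ℝ, 0 < ε → ∃ δ : ℝ, 0 < δ ∧ ∀ K : ℕ, ∃ k : ℕ, K ≤ k ∧ ∃ Q : ℝ[X], MT k Q ∧
      ∀ᶠ X : ℝ in atTop, ∀ T : Finset ℝ, (∀ y ∈ T, y ∈ Y ∧ X ≤ y ∧ y ≤ Real.exp 1 * X ∧
        y ^ (θ + ε) < s * (D k y - y * Q.eval (Real.log y))) → (T.card : ℝ) < X ^ (η - δ)) := by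
  have h23 : (∀ k : ℕ, ∃ Q : ℝ[X], ∀ ε : ℝ, 0 < ε → ∀ᶠ x : ℝ in atTop,
      |D k x - x * Q.eval (Real.log x)| ≤ x ^ (θ + ε)) →
      ∀ ε : ℝ, 0 < ε → ∃ δ : ℝ, 0 < δ ∧ ∀ K : ℕ, ∃ k : ℕ, K ≤ k ∧ ∃ Q : ℝ[X], MT k Q ∧
      ∀ᶠ X : ℝ in atTop, ∀ T : Finset ℝ, (∀ y ∈ T, y ∈ Y ∧ X ≤ y ∧ y ≤ Real.exp 1 * X ∧
        y ^ (θ + ε) < s * (D k y - y * Q.eval (Real.log y))) → (T.card : ℝ) < X ^ (η - δ) := by
    intro h ε hε
    refine ⟨1, one_pos, fun K => ⟨K, le_rfl, ?_⟩⟩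
    obtain ⟨Q, hQ⟩ := h K
    refine ⟨Q, MT_of_bound hθ1 hQ, ?_⟩
    obtain ⟨x0, hx0⟩ := eventually_atTop.1 (hQ ε hε)
    filter_upwards [eventually_ge_atTop x0, eventually_gt_atTop (0 : ℝ)] with X hX hX0 T hT
    have hT0 : T = ∅ := by
      rw [Finset.eq_empty_iff_forall_notMem]
      intro y hy
      obtain ⟨_, g2, _, g4⟩ := hT y hy
      have h1 := hx0 y (hX.trans g2)
      have h2 : s * (D K y - y * Q.eval (Real.log y)) ≤ |D K y - y * Q.eval (Real.log y)| := by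
        rcases hs with rfl | rfl
        · rw [one_mul]; exact le_abs_self _
        · rw [neg_one_mul]; exact neg_le_abs _
      linarith
    rw [hT0, Finset.card_empty, Nat.cast_zero]
    exact Real.rpow_pos_of_pos hX0 _
  have h12 : Lr θ → ∀ k : ℕ, ∃ Q : ℝ[X], ∀ ε : ℝ, 0 < ε → ∀ᶠ x : ℝ in atTop,
      |D k x - x * Q.eval (Real.log x)| ≤ x ^ (θ + ε) := fun hL k =>
    pointwise hp hi hpol hθ0 hθ1 hL k
  have h31 := descend hp hi hpol hu hg hL1 hθ0 hθ1 hη hη1 hY hs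
  exact ⟨⟨h12, fun h => h31 (h23 h)⟩, ⟨fun h => h23 (h12 h), h31⟩⟩

end

end Run7.h684.LD
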