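import Pool.Agent.Run7.h684.LD.Base
import Pool.Agent.Run7.h684.Smp.Chain

/-!
# The oscillation over the cells of a window
-/

set_option autoImplicit false

open MeasureTheory Filter Topology Set

namespace Run7.h684.LD

open Run7.h684.Smp (osc_abs)

noncomputable section

variable {E : ℝ → ℂ} {F : ℂ → ℂ} {θ : ℝ}

/-- **The oscillation over the cells of a window.** -/
theorem Dt.osc (h : Dt E F θ) {σ ε : ℝ} (hσ : θ < σ) (hσ2 : σ ≤ 2) (hε : 0 < ε) (hε1 : ε < 1) :
    ∃ C : ℝ, 0 < C ∧ ∀ (U δ : ℝ) (n : ℕ), 0 ≤ U → 0 < δ → δ ≤ 1 → 0 < n →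
      Real.exp (-(U + (n + 1) * δ)) ≤ δ → ∀ p q : ℕ → ℝ,
      (∀ i < n, U + i * δ ≤ p i ∧ p i ≤ U + (i + 1) * δ) →
      (∀ i < n, U + i * δ ≤ q i ∧ q i ≤ U + (i + 1) * δ) →
      ∑ i ∈ Finset.range n, ‖E (q i) - E (p i)‖ ≤
        C * (1 + (U + (n + 1) * δ)) * (n * Real.exp (ε * (U + (n + 1) * δ)) +
          Real.exp ((σ + ε) * (U + (n + 1) * δ)) * Real.sqrt n) := by
  obtain ⟨C, hC0, hC⟩ := h.ms hσ hσ2 (show 0 < ε / 2 by linarith) (by linarith)
  obtain ⟨Cf, hCf0, hCf⟩ := h.fin ε hε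
  refine ⟨2 * Cf + 1 + 10 * Real.sqrt C, by positivity, fun U δ n hU hδ hδ1 hn hVδ p q hp hq => ?_⟩
  set V : ℝ := U + (n + 1) * δ with hV
  have hnR : (0 : ℝ) < n := by exact_mod_cast hn
  have hV0 : 0 < V := by
    rw [hV]
    have : 0 < ((n : ℝ) + 1) * δ := by positivity
    linarith
  set J : ℕ := 2 * ⌈V⌉₊ with hJ
  have hceil : V ≤ ⌈V⌉₊ := Nat.le_ceil V
  have hceil2 : (⌈V⌉₊ : ℝ) < V + 1 := Nat.ceil_lt_add_one hV0.le
  have h2J : Real.exp V ≤ 2 ^ J := by
    have e1 : (2 : ℝ) ^ J = 4 ^ (⌈V⌉₊ : ℝ) := by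
      rw [Real.rpow_natCast, hJ, pow_mul]
      norm_num
    rw [e1]
    have h1 : Real.exp V ≤ (4 : ℝ) ^ V := by
      rw [Real.rpow_def_of_pos (by norm_num)]
      apply Real.exp_le_exp.2
      have h2 : 1 ≤ Real.log 4 := by
        rw [Real.le_log_iff_exp_le (by norm_num)]
        have := Real.exp_one_lt_d9
        linarith
      nlinarith
    exact h1.trans (Real.rpow_le_rpow_of_exponent_le (by norm_num) hceil)
  have h2J' : (2 : ℝ) ^ J ≤ 4 * Real.exp (2 * V) := by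
    have e1 : (2 : ℝ) ^ J = 4 ^ (⌈V⌉₊ : ℝ) := by
      rw [Real.rpow_natCast, hJ, pow_mul]
      norm_num
    rw [e1]
    have h1 : (4 : ℝ) ^ V ≤ Real.exp (2 * V) := by
      rw [Real.rpow_def_of_pos (by norm_num)]
      apply Real.exp_le_exp.2
      have h2 : Real.log 4 ≤ 2 := by
        rw [Real.log_le_iff_le_exp (by norm_num)]
        have h3 := Real.exp_one_gt_d9
        have h4 : Real.exp 2 = Real.exp 1 * Real.exp 1 := by rw [← Real.exp_add]; norm_num
        rw [h4]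
        nlinarith
      nlinarith
    calc (4 : ℝ) ^ (⌈V⌉₊ : ℝ) ≤ 4 ^ (V + 1) :=
          Real.rpow_le_rpow_of_exponent_le (by norm_num) hceil2.le
      _ = 4 * 4 ^ V := by rw [Real.rpow_add (by norm_num), Real.rpow_one, mul_comm]
      _ ≤ _ := by linarith
  -- the constants
  set B : ℝ := 2 * Real.sqrt C * Real.exp ((σ + ε) * V) * Real.sqrt n with hB
  have hB0 : 0 < B := by rw [hB]; positivity
  have hM : ∀ u ∈ Icc U (U + n * δ), ∀ v ∈ Icc u (u + δ / 2 ^ J), ‖E v - E u‖ ≤ Cf * Real.exp (ε * V) := by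
    intro u hu v hv
    have h1 : δ / 2 ^ J ≤ Real.exp (-V) := by
      rw [div_le_iff₀ (by positivity), Real.exp_neg, inv_mul_eq_div, le_div_iff₀ (Real.exp_pos _)]
      calc δ * Real.exp V ≤ 1 * Real.exp V := by gcongr
        _ ≤ 2 ^ J := by rw [one_mul]; exact h2J
    have h2 : δ / 2 ^ J ≤ δ := div_le_self hδ.le (one_le_pow₀ (by norm_num))
    have h3 : u ≤ V := by rw [hV]; nlinarith [hu.2]
    have h4 : v ≤ V := by
      rw [hV]
      have := hu.2
      have := hv.2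
      nlinarith
    exact hCf V u v (hU.trans hu.1) hv.1 h4 (by have := hv.2; linarith)
  have hQ : ∀ j ≤ J, ∫ v in U..(U + (n + 1) * δ), ‖E (v + δ / 2 ^ j) - E v‖ ^ 2 ≤
      δ / 2 ^ j * B ^ 2 / n := by
    intro j hj
    have hd0 : 0 < δ / 2 ^ j := by positivity
    have hd1 : δ / 2 ^ j ≤ 1 := (div_le_self hδ.le (one_le_pow₀ (by norm_num))).trans hδ1
    have h1 := hC (δ / 2 ^ j) hd0 hd1 U V (by
      rw [hV]
      have : 0 < ((n : ℝ) + 1) * δ := by positivity
      linarith)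
    refine h1.trans ?_
    have h2 : (δ / 2 ^ j) ^ (1 - ε / 2) = δ / 2 ^ j * (δ / 2 ^ j) ^ (-(ε / 2)) := by
      rw [show 1 - ε / 2 = 1 + -(ε / 2) by ring, Real.rpow_add hd0, Real.rpow_one]
    have h3 : Real.exp (-(3 * V)) / 4 ≤ δ / 2 ^ j := by
      have h4 : (2 : ℝ) ^ j ≤ 4 * Real.exp (2 * V) :=
        (pow_le_pow_right₀ (by norm_num) hj).trans h2J'
      rw [le_div_iff₀ (by positivity)]
      calc Real.exp (-(3 * V)) / 4 * 2 ^ j ≤ Real.exp (-(3 * V)) / 4 * (4 * Real.exp (2 * V)) := by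
            gcongr
        _ = Real.exp (-V) := by
            rw [show Real.exp (-(3 * V)) / 4 * (4 * Real.exp (2 * V)) =
              Real.exp (-(3 * V)) * Real.exp (2 * V) by ring, ← Real.exp_add]
            congr 1
            ring
        _ ≤ δ := hVδ
    have h5 : (δ / 2 ^ j) ^ (-(ε / 2)) ≤ 4 * Real.exp (2 * ε * V) := by
      have h6 : (δ / 2 ^ j) ^ (-(ε / 2)) ≤ (Real.exp (-(3 * V)) / 4) ^ (-(ε / 2)) :=
        Real.rpow_le_rpow_of_nonpos (by positivity) h3 (by linarith)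
      refine h6.trans ?_
      rw [Real.div_rpow (Real.exp_pos _).le (by norm_num), ← Real.exp_mul,
        Real.rpow_neg (by norm_num : (0 : ℝ) ≤ 4), div_inv_eq_mul, mul_comm]
      have h7 : (4 : ℝ) ^ (ε / 2) ≤ 4 := by
        calc (4 : ℝ) ^ (ε / 2) ≤ 4 ^ (1 : ℝ) :=
              Real.rpow_le_rpow_of_exponent_le (by norm_num) (by linarith)
          _ = 4 := Real.rpow_one 4
      have h8 : Real.exp (-(3 * V) * -(ε / 2)) ≤ Real.exp (2 * ε * V) := by
        apply Real.exp_le_exp.2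
        nlinarith [mul_pos hε hV0]
      gcongr
    rw [h2]
    have h9 : δ / 2 ^ j * B ^ 2 / n = 4 * C * Real.exp (2 * (σ + ε) * V) * (δ / 2 ^ j) := by
      rw [hB]
      have e1 : Real.exp (2 * (σ + ε) * V) = Real.exp ((σ + ε) * V) ^ 2 := by
        rw [← Real.exp_nat_mul]
        congr 1
        push_cast
        ring
      rw [e1, mul_pow, mul_pow, mul_pow, Real.sq_sqrt hC0.le, Real.sq_sqrt hnR.le]
      field_simp
      ring
    rw [h9]
    calc C * Real.exp (2 * σ * V) * (δ / 2 ^ j * (δ / 2 ^ j) ^ (-(ε / 2)))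
        ≤ C * Real.exp (2 * σ * V) * (δ / 2 ^ j * (4 * Real.exp (2 * ε * V))) := by gcongr
      _ = 4 * C * (Real.exp (2 * σ * V) * Real.exp (2 * ε * V)) * (δ / 2 ^ j) := by ring
      _ = _ := by
          rw [← Real.exp_add]
          congr 3
          ring
  have hmain := osc_abs hn hδ hB0 h.ii h.ii2 hQ hM p q hp hq
  refine hmain.trans ?_
  have hJ2 : (2 * (J : ℝ) + 1) ≤ 5 * (1 + V) := by
    rw [hJ]
    push_cast
    linarith
  have h1V : 0 < 1 + V := by linarith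
  have hX0 : 0 < Real.exp (ε * V) := Real.exp_pos _
  calc 2 * (n : ℝ) * (Cf * Real.exp (ε * V)) + (2 * J + 1) * B ≤
        2 * Cf * (1 + V) * (n * Real.exp (ε * V)) + 5 * (1 + V) * B := by
        have h2 : 2 * (n : ℝ) * (Cf * Real.exp (ε * V)) ≤ 2 * Cf * (1 + V) * (n * Real.exp (ε * V)) := by
          have h0 : 0 ≤ 2 * Cf * (n * Real.exp (ε * V)) := by positivity
          nlinarith
        have h3 : (2 * (J : ℝ) + 1) * B ≤ 5 * (1 + V) * B := by gcongr
        linarith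
    _ = 2 * Cf * (1 + V) * (n * Real.exp (ε * V)) +
          10 * Real.sqrt C * (1 + V) * (Real.exp ((σ + ε) * V) * Real.sqrt n) := by
        rw [hB]; ring
    _ ≤ _ := by
        have h4 : 0 ≤ Real.exp ((σ + ε) * V) * Real.sqrt n := by positivity
        have h5 : 0 ≤ Real.sqrt C := Real.sqrt_nonneg _
        have h6 : (2 * Cf + 1 + 10 * Real.sqrt C) * (1 + V) * (n * Real.exp (ε * V) +
            Real.exp ((σ + ε) * V) * Real.sqrt n) =
            2 * Cf * (1 + V) * (n * Real.exp (ε * V)) +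
            10 * Real.sqrt C * (1 + V) * (Real.exp ((σ + ε) * V) * Real.sqrt n) +
            ((2 * Cf + 1) * (1 + V) * (Real.exp ((σ + ε) * V) * Real.sqrt n) +
            (1 + 10 * Real.sqrt C) * (1 + V) * (n * Real.exp (ε * V))) := by
          ring
        rw [h6]
        have h7 : 0 ≤ (2 * Cf + 1) * (1 + V) * (Real.exp ((σ + ε) * V) * Real.sqrt n) +
          (1 + 10 * Real.sqrt C) * (1 + V) * (n * Real.exp (ε * V)) := by positivity
        linarith

end

end Run7.h684.LD
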